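import Mathlib

/-!
Non-parallel vectors, polynomial parameters, orthogonal complements.
-/

set_option autoImplicit false

namespace Q35.FC

open Matrix Polynomial

section NP

variable {K ι : Type*} [Field K]

/-- `a` and `b` are linearly independent (some 2 × 2 minor does not vanish) -/
def NP (a b : ι → K) : Prop := ∃ i j, a i * b j ≠ a j * b i

theorem NP.symm {a b : ι → K} (h : NP a b) : NP b a := by
  obtain ⟨i, j, h⟩ := h
  exact ⟨j, i, fun e => h (by linear_combination e)⟩

theorem np_left_ne {a b : ι → K} (h : NP a b) : a ≠ 0 := by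
  rintro rfl
  obtain ⟨i, j, h⟩ := h
  exact h (by simp)

theorem np_right_ne {a b : ι → K} (h : NP a b) : b ≠ 0 := np_left_ne h.symm

theorem np_iff {a b : ι → K} : NP a b ↔ ∀ s t : K, s • a + t • b = 0 → s = 0 ∧ t = 0 := by
  constructor
  · rintro ⟨i, j, h⟩ s t e
    have hi := congrFun e i
    have hj := congrFun e j
    simp only [Pi.add_apply, Pi.smul_apply, smul_eq_mul, Pi.zero_apply] at hi hj
    have h' : a i * b j - a j * b i ≠ 0 := sub_ne_zero.2 h
    constructor
    · have : s * (a i * b j - a j * b i) = 0 := by linear_combination b j * hi - b i * hj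
      exact (mul_eq_zero.1 this).resolve_right h'
    · have : t * (a i * b j - a j * b i) = 0 := by linear_combination a i * hj - a j * hi
      exact (mul_eq_zero.1 this).resolve_right h'
  · intro h
    by_contra hc
    unfold NP at hc
    push Not at hc
    by_cases ha : a = 0
    · have := h 1 0 (by simp [ha])
      exact one_ne_zero this.1
    · obtain ⟨i, hi⟩ : ∃ i, a i ≠ 0 := by
        by_contra hh
        push Not at hh
        exact ha (funext hh)
      have := h (b i) (-(a i)) (by
        funext j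
        simp only [Pi.add_apply, Pi.smul_apply, smul_eq_mul, Pi.zero_apply]
        linear_combination -(hc i j))
      exact hi (neg_eq_zero.1 this.2)

/-- parallel to a nonzero vector -/
theorem par_of_not_np {a b : ι → K} (ha : a ≠ 0) (h : ¬ NP a b) : ∃ t : K, b = t • a := by
  obtain ⟨i, hi⟩ : ∃ i, a i ≠ 0 := by
    by_contra hh
    push Not at hh
    exact ha (funext hh)
  unfold NP at h
  push Not at h
  refine ⟨b i / a i, ?_⟩
  funext j
  have := h i j
  simp only [Pi.smul_apply, smul_eq_mul]
  field_simp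
  linear_combination this

theorem not_np_smul (a : ι → K) (s t : K) : ¬ NP (s • a) (t • a) := by
  rintro ⟨i, j, h⟩
  exact h (by simp only [Pi.smul_apply, smul_eq_mul]; ring)

theorem not_np_iff {a b : ι → K} : ¬ NP a b ↔ ∀ i j, a i * b j = a j * b i := by
  unfold NP
  push Not
  rfl

/-- dual vectors of two independent vectors -/
theorem NP.dual [Fintype ι] [DecidableEq ι] {a b : ι → K} (h : NP a b) :
    ∃ a' b' : ι → K, a ⬝ᵥ a' = 1 ∧ b ⬝ᵥ a' = 0 ∧ a ⬝ᵥ b' = 0 ∧ b ⬝ᵥ b' = 1 := by
  obtain ⟨i, j, h⟩ := h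
  have h' : a i * b j - a j * b i ≠ 0 := sub_ne_zero.2 h
  refine ⟨(a i * b j - a j * b i)⁻¹ • (b j • Pi.single i 1 - b i • Pi.single j 1),
    (a i * b j - a j * b i)⁻¹ • (a i • Pi.single j 1 - a j • Pi.single i 1), ?_, ?_, ?_, ?_⟩
  all_goals
    rw [dotProduct_smul, dotProduct_sub, dotProduct_smul, dotProduct_smul,
      dotProduct_single, dotProduct_single]
    simp only [smul_eq_mul, mul_one]
  · field_simp
  · ring
  · ring
  · field_simp

theorem exists_dot_one [Fintype ι] [DecidableEq ι] {a : ι → K} (h : a ≠ 0) :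
    ∃ a' : ι → K, a ⬝ᵥ a' = 1 := by
  obtain ⟨i, hi⟩ : ∃ i, a i ≠ 0 := by
    by_contra hh
    push Not at hh
    exact h (funext hh)
  refine ⟨(a i)⁻¹ • Pi.single i 1, ?_⟩
  rw [dotProduct_smul, dotProduct_single]
  simp only [smul_eq_mul, mul_one]
  field_simp

end NP

section perp

variable {K : Type*} [Field K] {n : ℕ}

/-- orthogonal complement for the dot product -/
def perp (V : Submodule K (Fin n → K)) : Submodule K (Fin n → K) where
  carrier := {x | ∀ y ∈ V, y ⬝ᵥ x = 0}
  add_mem' := by
    intro a b ha hb y hy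
    rw [dotProduct_add, ha y hy, hb y hy, add_zero]
  zero_mem' := by
    intro y _
    simp
  smul_mem' := by
    intro c a ha y hy
    rw [dotProduct_smul, ha y hy, smul_zero]

theorem mem_perp {V : Submodule K (Fin n → K)} {x : Fin n → K} :
    x ∈ perp V ↔ ∀ y ∈ V, y ⬝ᵥ x = 0 := Iff.rfl

/-- pairing with `V` -/
def pairV (V : Submodule K (Fin n → K)) : (Fin n → K) →ₗ[K] (V →ₗ[K] K) where
  toFun x :=
    { toFun := fun y => (y : Fin n → K) ⬝ᵥ x
      map_add' := by intro a b; simp [add_dotProduct]
      map_smul' := by intro c a; simp [smul_dotProduct] }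
  map_add' := by
    intro a b
    ext y
    simp [dotProduct_add]
  map_smul' := by
    intro c a
    ext y
    simp [dotProduct_smul]

theorem ker_pairV (V : Submodule K (Fin n → K)) : LinearMap.ker (pairV V) = perp V := by
  ext x
  rw [LinearMap.mem_ker, mem_perp]
  constructor
  · intro h y hy
    have := LinearMap.congr_fun h ⟨y, hy⟩
    simpa [pairV] using this
  · intro h
    ext y
    simpa [pairV] using h y.1 y.2

theorem range_pairV (V : Submodule K (Fin n → K)) : LinearMap.range (pairV V) = ⊤ := by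
  rw [eq_top_iff]
  intro φ _
  obtain ⟨g, hg⟩ := φ.exists_extend
  refine ⟨fun i => g (Pi.single i 1), ?_⟩
  ext y
  have h1 : (y : Fin n → K) = ∑ i, (y : Fin n → K) i • Pi.single i 1 := by
    funext j
    simp [Finset.sum_apply, Pi.single_apply]
  have h2 : φ y = g y := by
    rw [← hg]; rfl
  rw [h2]
  conv_rhs => rw [h1]
  rw [map_sum]
  simp [pairV, dotProduct]

theorem finrank_perp (V : Submodule K (Fin n → K)) :
    Module.finrank K V + Module.finrank K (perp V) = n := by
  have h := LinearMap.finrank_range_add_finrank_ker (pairV V)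
  rw [range_pairV, finrank_top, ker_pairV] at h
  have h2 : Module.finrank K (V →ₗ[K] K) = Module.finrank K V := Subspace.dual_finrank_eq
  rw [h2] at h
  simpa using h

theorem two_le_finrank_span {a b : Fin n → K} (hab : NP a b) :
    2 ≤ Module.finrank K (Submodule.span K {a, b}) := by
  have hli : LinearIndependent K ![a, b] := by
    rw [LinearIndependent.pair_iff]
    exact np_iff.1 hab
  have h := finrank_span_eq_card hli
  have hr : Set.range ![a, b] = {a, b} := by
    ext x
    simp [eq_comm, or_comm]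
  rw [hr] at h
  rw [h]; simp

/-- `dim W ≤ 1` from orthogonality to two independent vectors in `K³` -/
theorem np_np_false {a b c d : Fin 3 → K} (hab : NP a b) (hcd : NP c d)
    (h1 : a ⬝ᵥ c = 0) (h2 : a ⬝ᵥ d = 0) (h3 : b ⬝ᵥ c = 0) (h4 : b ⬝ᵥ d = 0) : False := by
  have hle : Submodule.span K {c, d} ≤ perp (Submodule.span K {a, b}) := by
    rw [Submodule.span_le]
    intro x hx y hy
    induction hy using Submodule.span_induction with
    | mem y hy =>
      rcases hy with rfl | hy <;> rcases hx with rfl | hx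
      · exact h1
      · rw [Set.mem_singleton_iff.1 hx]; exact h2
      · rw [Set.mem_singleton_iff.1 hy]; exact h3
      · rw [Set.mem_singleton_iff.1 hy, Set.mem_singleton_iff.1 hx]; exact h4
    | zero => simp
    | add y z _ _ hy hz => rw [add_dotProduct, hy, hz, add_zero]
    | smul c y _ hy => rw [smul_dotProduct, hy, smul_zero]
  have h5 := Submodule.finrank_mono hle
  have h6 := finrank_perp (Submodule.span K {a, b})
  have h7 := two_le_finrank_span hab
  have h8 := two_le_finrank_span hcd
  omega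

theorem two_le_finrank {V : Submodule K (Fin n → K)} {a b : Fin n → K} (ha : a ∈ V) (hb : b ∈ V)
    (h : NP a b) : 2 ≤ Module.finrank K V := by
  have hle : Submodule.span K {a, b} ≤ V := by
    rw [Submodule.span_le]
    rintro x (rfl | hx)
    · exact ha
    · rw [Set.mem_singleton_iff.1 hx]; exact hb
  exact (two_le_finrank_span h).trans (Submodule.finrank_mono hle)

end perp

section param

variable {K : Type*} [Field K]

/-- polynomial functions of one variable -/
def PF (f : K → K) : Prop := ∃ p : K[X], ∀ t, p.eval t = f t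

theorem PF.const (c : K) : PF (fun _ => c) := ⟨C c, fun t => by simp⟩
theorem PF.id : PF (fun t : K => t) := ⟨X, fun t => by simp⟩
theorem PF.add {f g : K → K} (hf : PF f) (hg : PF g) : PF (fun t => f t + g t) := by
  obtain ⟨p, hp⟩ := hf
  obtain ⟨q, hq⟩ := hg
  exact ⟨p + q, fun t => by rw [eval_add, hp, hq]⟩
theorem PF.sub {f g : K → K} (hf : PF f) (hg : PF g) : PF (fun t => f t - g t) := by
  obtain ⟨p, hp⟩ := hf
  obtain ⟨q, hq⟩ := hg
  exact ⟨p - q, fun t => by rw [eval_sub, hp, hq]⟩
theorem PF.mul {f g : K → K} (hf : PF f) (hg : PF g) : PF (fun t => f t * g t) := by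
  obtain ⟨p, hp⟩ := hf
  obtain ⟨q, hq⟩ := hg
  exact ⟨p * q, fun t => by rw [eval_mul, hp, hq]⟩

theorem PF.exists_ne [Infinite K] {f g : K → K} (hf : PF f) (hg : PF g) {a b : K} (ha : f a ≠ 0)
    (hb : g b ≠ 0) : ∃ t, f t ≠ 0 ∧ g t ≠ 0 := by
  obtain ⟨p, hp⟩ := hf
  obtain ⟨q, hq⟩ := hg
  by_contra hc
  push Not at hc
  have hpq : p * q = 0 := by
    apply Polynomial.funext
    intro t
    rw [eval_mul, eval_zero, hp, hq]
    by_cases h : f t = 0
    · rw [h, zero_mul]
    · rw [hc t h, mul_zero]
  rcases mul_eq_zero.1 hpq with h | h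
  · apply ha; rw [← hp, h, eval_zero]
  · apply hb; rw [← hq, h, eval_zero]

theorem PF.exists_ne' [Infinite K] {f : K → K} (hf : PF f) {a b : K} (ha : f a ≠ 0) :
    ∃ t, f t ≠ 0 ∧ t ≠ b := by
  have h2 : PF (fun t : K => t - b) := PF.id.sub (PF.const b)
  obtain ⟨t, h1, h3⟩ := hf.exists_ne h2 ha (b := b + 1) (by simp)
  exact ⟨t, h1, sub_ne_zero.1 h3⟩

/-- coefficients of a vanishing quartic -/
theorem coeffs_zero [Infinite K] {c1 c2 c3 c4 : K}
    (h : ∀ t : K, c1 * t + c2 * t ^ 2 + c3 * t ^ 3 + c4 * t ^ 4 = 0) :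
    c1 = 0 ∧ c2 = 0 ∧ c3 = 0 ∧ c4 = 0 := by
  have hp : (C c1 * X + C c2 * X ^ 2 + C c3 * X ^ 3 + C c4 * X ^ 4 : K[X]) = 0 := by
    apply Polynomial.funext
    intro t
    simpa using h t
  have h1 := congrArg (fun p => coeff p 1) hp
  have h2 := congrArg (fun p => coeff p 2) hp
  have h3 := congrArg (fun p => coeff p 3) hp
  have h4 := congrArg (fun p => coeff p 4) hp
  simp [coeff_X_pow] at h1 h2 h3 h4
  exact ⟨h1, h2, h3, h4⟩

/-- the minor of two lines of vectors -/
theorem PF.minor {ι : Type*} (a a' b b' : ι → K) (i j : ι) :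
    PF (fun t : K => (a + t • (a' - a)) i * (b + t • (b' - b)) j
      - (a + t • (a' - a)) j * (b + t • (b' - b)) i) := by
  have h : ∀ (a a' : ι → K) (i : ι), PF (fun t : K => (a + t • (a' - a)) i) := by
    intro a a' i
    have := (PF.const (a i)).add (PF.id.mul (PF.const (a' i - a i)))
    exact this
  exact ((h a a' i).mul (h b b' j)).sub ((h a a' j).mul (h b b' i))

/-- two families of pairs can be made independent at the same time -/
theorem exists_np_np [Infinite K] {ι κ : Type*} {a a' b b' : ι → K} {c c' d d' : κ → K}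
    (h1 : NP a b) (h2 : NP c' d') : ∃ t : K, NP (a + t • (a' - a)) (b + t • (b' - b)) ∧
      NP (c + t • (c' - c)) (d + t • (d' - d)) := by
  obtain ⟨i, j, h1⟩ := h1
  obtain ⟨k, l, h2⟩ := h2
  obtain ⟨t, ht1, ht2⟩ := (PF.minor a a' b b' i j).exists_ne (PF.minor c c' d d' k l)
    (a := 0) (b := 1) (by simpa [sub_eq_zero] using h1) (by simpa [sub_eq_zero] using h2)
  exact ⟨t, ⟨i, j, fun e => ht1 (by rw [e]; ring)⟩, ⟨k, l, fun e => ht2 (by rw [e]; ring)⟩⟩

end param

end Q35.FC
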