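import Mathlib
import Pool.Agent.Q35.FC.NP

/-!
The two kinds of large second order behaviour exclude each other.
-/

set_option autoImplicit false

namespace Q35.FC

open Matrix

variable {K Q : Type*} [Field K] [AddCommGroup Q] [Module K Q]

/-- The blocks `A`, `B = (b_1, b_2)` (columns), `C = (c_1; c_2)` (rows) of a space of matrices and
the relations between them. -/
structure Rel (A : Q →ₗ[K] Matrix (Fin 3) (Fin 3) K) (b c : Fin 2 → Q →ₗ[K] (Fin 3 → K)) :
    Prop where
  inj : ∀ X, A X = 0 → (∀ j, b j X = 0) → (∀ i, c i X = 0) → X = 0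
  cb : ∀ X i j, c i X ⬝ᵥ b j X = 0
  cab : ∀ X i j, c i X ⬝ᵥ (A X *ᵥ b j X) = 0
  caab : ∀ X i j, c i X ⬝ᵥ (A X *ᵥ (A X *ᵥ b j X)) = 0

theorem vmv_mulVec {n : Type*} [Fintype n] (p q y : n → K) :
    vecMulVec p q *ᵥ y = (q ⬝ᵥ y) • p := by
  funext i
  simp only [mulVec, dotProduct, vecMulVec_apply, Pi.smul_apply, smul_eq_mul]
  rw [Finset.sum_mul]
  exact Finset.sum_congr rfl (fun j _ => by ring)

theorem dot_vmv {n : Type*} [Fintype n] (x p q y : n → K) :
    x ⬝ᵥ (vecMulVec p q *ᵥ y) = (q ⬝ᵥ y) * (x ⬝ᵥ p) := by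
  rw [vmv_mulVec, dotProduct_smul, smul_eq_mul]

/-- the bilinear functional `A ↦ x A y` -/
def phi {n : Type*} [Fintype n] (x y : n → K) : Matrix n n K →ₗ[K] K where
  toFun A := x ⬝ᵥ (A *ᵥ y)
  map_add' := by intro A B; rw [add_mulVec, dotProduct_add]
  map_smul' := by intro c A; rw [smul_mulVec, dotProduct_smul]; rfl

theorem phi_apply {n : Type*} [Fintype n] (x y : n → K) (A : Matrix n n K) :
    phi x y A = x ⬝ᵥ (A *ᵥ y) := rfl

/-- three functionals -/
def theta (z1 z2 b1 b2 : Fin 3 → K) : Matrix (Fin 3) (Fin 3) K →ₗ[K] (K × K × K) :=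
  (phi z1 b1).prod ((phi z1 b2 + phi z2 b1).prod (phi z2 b2))

theorem theta_apply (z1 z2 b1 b2 : Fin 3 → K) (A : Matrix (Fin 3) (Fin 3) K) :
    theta z1 z2 b1 b2 A = (z1 ⬝ᵥ (A *ᵥ b1), z1 ⬝ᵥ (A *ᵥ b2) + z2 ⬝ᵥ (A *ᵥ b1),
      z2 ⬝ᵥ (A *ᵥ b2)) := rfl

theorem finrank_ker_theta {z1 z2 b1 b2 : Fin 3 → K} (hz : NP z1 z2) (hb : NP b1 b2) :
    Module.finrank K (LinearMap.ker (theta z1 z2 b1 b2)) = 6 := by
  obtain ⟨p1, p2, e1, e2, e3, e4⟩ := hz.dual
  obtain ⟨q1, q2, f1, f2, f3, f4⟩ := hb.dual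
  rw [dotProduct_comm] at f1 f2 f3 f4
  have hs : LinearMap.range (theta z1 z2 b1 b2) = ⊤ := by
    rw [LinearMap.range_eq_top]
    rintro ⟨s0, s1, s2⟩
    refine ⟨s0 • vecMulVec p1 q1 + s1 • vecMulVec p1 q2 + s2 • vecMulVec p2 q2, ?_⟩
    simp only [map_add, map_smul, theta_apply, dot_vmv, e1, e2, e3, e4, f1, f2, f3, f4]
    ext <;> simp
  have h := LinearMap.finrank_range_add_finrank_ker (theta z1 z2 b1 b2)
  rw [hs, finrank_top] at h
  have h1 : Module.finrank K (K × K × K) = 3 := by simp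
  have h2 : Module.finrank K (Matrix (Fin 3) (Fin 3) K) = 9 := by
    rw [Module.finrank_matrix]; simp
  omega

section core

variable [Infinite K] [FiniteDimensional K Q]

theorem core_v (A : Q →ₗ[K] Matrix (Fin 3) (Fin 3) K) (b : Fin 2 → Q →ₗ[K] (Fin 3 → K))
    (v : Q →ₗ[K] (Fin 3 → K)) (inj : ∀ X, A X = 0 → (∀ j, b j X = 0) → v X = 0 → X = 0)
    (h1 : ∀ X j, v X ⬝ᵥ b j X = 0) (h2 : ∀ X j, v X ⬝ᵥ (A X *ᵥ b j X) = 0)
    (hv : ∃ X Y, NP (v X) (v Y)) (hb : ∃ X Y i j, NP (b i X) (b j Y)) :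
    Module.finrank K Q ≤ 10 := by
  have pol : ∀ X Y j, v X ⬝ᵥ b j Y + v Y ⬝ᵥ b j X = 0 := by
    intro X Y j
    have := h1 (X + Y) j
    rw [map_add, map_add, add_dotProduct, dotProduct_add, dotProduct_add, h1, h1] at this
    simpa using this
  -- Step A
  obtain ⟨j, Z1, Z2, hz, hbz⟩ : ∃ j Z1 Z2, NP (v Z1) (v Z2) ∧ NP (b j Z1) (b j Z2) := by
    obtain ⟨X1, X2, hX⟩ := hv
    by_cases hj : ∃ j Y1 Y2, NP (b j Y1) (b j Y2)
    · obtain ⟨j, Y1, Y2, hY⟩ := hj
      obtain ⟨t, ht1, ht2⟩ := exists_np_np (a := v X1) (a' := v Y1) (b := v X2) (b' := v Y2)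
        (c := b j X1) (c' := b j Y1) (d := b j X2) (d' := b j Y2) hX hY
      refine ⟨j, X1 + t • (Y1 - X1), X2 + t • (Y2 - X2), ?_, ?_⟩
      · simpa only [map_add, map_smul, map_sub] using ht1
      · simpa only [map_add, map_smul, map_sub] using ht2
    · exfalso
      push Not at hj
      obtain ⟨Y1, Y2, i, j, hY⟩ := hb
      have key : ∀ Z Y i, b i Y ≠ 0 → v Z ⬝ᵥ b i Y = 0 := by
        intro Z Y i hne
        obtain ⟨t, ht⟩ := par_of_not_np hne (hj i Y Z)
        have := pol Z Y i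
        rw [ht, dotProduct_smul, h1, smul_zero, add_zero] at this
        exact this
      exact np_np_false hX hY (key _ _ _ (np_left_ne hY)) (key _ _ _ (np_right_ne hY))
        (key _ _ _ (np_left_ne hY)) (key _ _ _ (np_right_ne hY))
  -- Step B
  set V := LinearMap.range v with hV
  have hs2 : 2 ≤ Module.finrank K V := two_le_finrank ⟨Z1, rfl⟩ ⟨Z2, rfl⟩ hz
  have hperp := finrank_perp V
  have hker := LinearMap.finrank_range_add_finrank_ker v
  rw [← hV] at hker
  have hmem : ∀ j (X : LinearMap.ker v), ((b j).comp (LinearMap.ker v).subtype) X ∈ perp V := by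
    rintro j ⟨X, hX⟩ y ⟨Y, rfl⟩
    rw [LinearMap.mem_ker] at hX
    have := pol Y X j
    rw [hX, zero_dotProduct, add_zero] at this
    exact this
  let β : LinearMap.ker v →ₗ[K] (Fin 2 → perp V) :=
    LinearMap.pi (fun j => ((b j).comp (LinearMap.ker v).subtype).codRestrict (perp V) (hmem j))
  have hβ := LinearMap.finrank_range_add_finrank_ker β
  have hβ1 : Module.finrank K (LinearMap.range β) ≤ 2 * Module.finrank K (perp V) := by
    refine (Submodule.finrank_le _).trans ?_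
    rw [Module.finrank_pi_fintype]
    simp
  have hQ0 : Module.finrank K (LinearMap.ker β) ≤ 6 := by
    rw [← finrank_ker_theta hz hbz]
    have hk : ∀ X : LinearMap.ker β, v (X : LinearMap.ker v) = 0 ∧
        ∀ j, b j (X : LinearMap.ker v) = 0 := by
      rintro ⟨⟨X, hX⟩, hX2⟩
      refine ⟨hX, fun j => ?_⟩
      rw [LinearMap.mem_ker] at hX2
      have := congrArg Subtype.val (congrFun hX2 j)
      exact this
    have hq : ∀ (X : LinearMap.ker β) Z j, v Z ⬝ᵥ (A (X : LinearMap.ker v) *ᵥ b j Z) = 0 := by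
      intro X Z j
      obtain ⟨e1, e2⟩ := hk X
      have := h2 (Z + (X : LinearMap.ker v)) j
      rw [map_add, map_add, map_add, e1, e2, add_zero, add_zero, add_mulVec, dotProduct_add,
        h2, zero_add] at this
      exact this
    have hmem2 : ∀ X : LinearMap.ker β,
        ((A.comp (LinearMap.ker v).subtype).comp (LinearMap.ker β).subtype) X ∈
          LinearMap.ker (theta (v Z1) (v Z2) (b j Z1) (b j Z2)) := by
      intro X
      rw [LinearMap.mem_ker]
      have e1 := hq X Z1 j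
      have e2 := hq X Z2 j
      have e3 := hq X (Z1 + Z2) j
      rw [map_add, map_add, mulVec_add, add_dotProduct, dotProduct_add, dotProduct_add, e1, e2,
        zero_add, add_zero] at e3
      rw [theta_apply]
      simp only [LinearMap.comp_apply, Submodule.subtype_apply]
      rw [e1, e2, e3]
      rfl
    refine LinearMap.finrank_le_finrank_of_injective
      (f := ((A.comp (LinearMap.ker v).subtype).comp (LinearMap.ker β).subtype).codRestrict _
        hmem2) ?_
    rw [injective_iff_map_eq_zero]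
    intro X hX
    have h0 : A (X : LinearMap.ker v) = 0 := congrArg Subtype.val hX
    obtain ⟨e1, e2⟩ := hk X
    have := inj _ h0 e2 e1
    exact Subtype.ext (Subtype.ext this)
  omega

/-- `c_0 ∧ c_1 = 0` identically: one linear combination of `c_0` and `c_1` vanishes -/
theorem exists_comb {c : Fin 2 → Q →ₗ[K] (Fin 3 → K)} (h : ∀ X, ¬ NP (c 0 X) (c 1 X))
    (hc : ∃ X Y i j, NP (c i X) (c j Y)) :
    ∃ s t : K, (s ≠ 0 ∨ t ≠ 0) ∧ ∀ X, s • c 0 X + t • c 1 X = 0 := by
  obtain ⟨X0, Y0, i0, j0, h0⟩ := hc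
  have hX0 : c i0 X0 ≠ 0 := np_left_ne h0
  -- a relation at X0
  obtain ⟨s, t, hst, hrel⟩ : ∃ s t : K, (s ≠ 0 ∨ t ≠ 0) ∧ s • c 0 X0 + t • c 1 X0 = 0 := by
    by_contra hcon
    push Not at hcon
    apply h X0
    rw [np_iff]
    intro s t hst
    by_contra hne
    rw [not_and_or] at hne
    exact hcon s t hne hst
  refine ⟨s, t, hst, ?_⟩
  set z : Q →ₗ[K] (Fin 3 → K) := s • c 0 + t • c 1 with hz
  have hzX0 : z X0 = 0 := hrel
  -- polarised relations
  have pol : ∀ X Y i j, c 0 X i * c 1 Y j + c 0 Y i * c 1 X j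
      = c 0 X j * c 1 Y i + c 0 Y j * c 1 X i := by
    intro X Y i j
    have e1 := not_np_iff.1 (h X) i j
    have e2 := not_np_iff.1 (h Y) i j
    have e3 := not_np_iff.1 (h (X + Y)) i j
    simp only [map_add, Pi.add_apply] at e3
    linear_combination e3 - e1 - e2
  -- `c_k X ∧ z Y + c_k Y ∧ z X = 0`
  have polz : ∀ k X Y i j, c k X i * z Y j + c k Y i * z X j
      = c k X j * z Y i + c k Y j * z X i := by
    intro k X Y i j
    have e := pol X Y i j
    simp only [hz, LinearMap.add_apply, LinearMap.smul_apply, Pi.add_apply, Pi.smul_apply,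
      smul_eq_mul]
    fin_cases k
    · simp only [Fin.zero_eta, Fin.isValue]
      linear_combination t * e
    · simp only [Fin.mk_one, Fin.isValue]
      linear_combination -s * e
  intro X
  by_contra hzX
  have hzX : z X ≠ 0 := hzX
  -- z X is parallel to c i0 X0
  have h1 : ¬ NP (c i0 X0) (z X) := by
    rw [not_np_iff]
    intro i j
    have := polz i0 X0 X i j
    rw [hzX0] at this
    simpa using this
  obtain ⟨l, hl⟩ := par_of_not_np hX0 h1
  have hl0 : l ≠ 0 := by
    rintro rfl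
    exact hzX (by rw [hl, zero_smul])
  -- every z Z is a multiple of u := c i0 X0
  have hzpar : ∀ Z, ∃ m : K, z Z = m • c i0 X0 := by
    intro Z
    refine par_of_not_np hX0 ?_
    rw [not_np_iff]
    intro i j
    have := polz i0 X0 Z i j
    rw [hzX0] at this
    simpa using this
  -- c k X is parallel to z X
  have h2 : ∀ k, ∃ m : K, c k X = m • c i0 X0 := by
    intro k
    have h3 : ¬ NP (z X) (c k X) := by
      rw [not_np_iff]
      intro i j
      have e := not_np_iff.1 (h X) i j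
      simp only [hz, LinearMap.add_apply, LinearMap.smul_apply, Pi.add_apply, Pi.smul_apply,
        smul_eq_mul]
      fin_cases k
      · simp only [Fin.zero_eta, Fin.isValue]
        linear_combination -t * e
      · simp only [Fin.mk_one, Fin.isValue]
        linear_combination s * e
    obtain ⟨m, hm⟩ := par_of_not_np hzX h3
    exact ⟨m * l, by rw [hm, hl, smul_smul]⟩
  -- hence all c k Z are multiples of u
  obtain ⟨m, hm⟩ := h2 j0
  obtain ⟨m', hm'⟩ := hzpar Y0
  obtain ⟨i, j, hij⟩ := h0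
  apply hij
  have e := polz j0 X Y0 i j
  rw [hm, hm', hl] at e
  simp only [Pi.smul_apply, smul_eq_mul] at e
  have e' : l * (c j0 Y0 i * c i0 X0 j - c j0 Y0 j * c i0 X0 i) = 0 := by linear_combination e
  have e'' := (mul_eq_zero.1 e').resolve_left hl0
  linear_combination -e''

theorem not_both_aux (A : Q →ₗ[K] Matrix (Fin 3) (Fin 3) K) (b c : Fin 2 → Q →ₗ[K] (Fin 3 → K))
    (hR : Rel A b c) (hb : ∃ X Y i j, NP (b i X) (b j Y)) (hc : ∃ X Y i j, NP (c i X) (c j Y))
    (h : ∀ X, ¬ NP (c 0 X) (c 1 X)) : Module.finrank K Q ≤ 10 := by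
  obtain ⟨s, t, hst, hz⟩ := exists_comb h hc
  -- there is an index `k` such that both `c`'s are multiples of `c k`
  obtain ⟨k, hk⟩ : ∃ k : Fin 2, ∀ i, ∃ m : K, ∀ X, c i X = m • c k X := by
    rcases hst with hs | ht
    · refine ⟨1, fun i => ?_⟩
      fin_cases i
      · refine ⟨-(t / s), fun X => ?_⟩
        have := hz X
        funext l
        have := congrFun this l
        simp only [Pi.add_apply, Pi.smul_apply, smul_eq_mul, Pi.zero_apply] at this
        simp only [Fin.zero_eta, Fin.isValue, Pi.smul_apply, smul_eq_mul]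
        field_simp
        linear_combination this
      · exact ⟨1, fun X => by simp⟩
    · refine ⟨0, fun i => ?_⟩
      fin_cases i
      · exact ⟨1, fun X => by simp⟩
      · refine ⟨-(s / t), fun X => ?_⟩
        have := hz X
        funext l
        have := congrFun this l
        simp only [Pi.add_apply, Pi.smul_apply, smul_eq_mul, Pi.zero_apply] at this
        simp only [Fin.mk_one, Fin.isValue, Pi.smul_apply, smul_eq_mul]
        field_simp
        linear_combination this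
  refine core_v A b (c k) ?_ (fun X j => hR.cb X k j) (fun X j => hR.cab X k j) ?_ hb
  · intro X h1 h2 h3
    refine hR.inj X h1 h2 (fun i => ?_)
    obtain ⟨m, hm⟩ := hk i
    rw [hm, h3, smul_zero]
  · obtain ⟨X, Y, i, j, hij⟩ := hc
    refine ⟨X, Y, ?_⟩
    obtain ⟨m, hm⟩ := hk i
    obtain ⟨m', hm'⟩ := hk j
    rw [hm, hm'] at hij
    obtain ⟨p, q, hpq⟩ := hij
    refine ⟨p, q, fun e => hpq ?_⟩
    simp only [Pi.smul_apply, smul_eq_mul]
    linear_combination m * m' * e

theorem Rel.transpose {A : Q →ₗ[K] Matrix (Fin 3) (Fin 3) K}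
    {b c : Fin 2 → Q →ₗ[K] (Fin 3 → K)} (hR : Rel A b c) :
    Rel ((transposeLinearEquiv (Fin 3) (Fin 3) K K).toLinearMap.comp A) c b where
  inj := by
    intro X h1 h2 h3
    refine hR.inj X ?_ h3 h2
    have h1' : (A X)ᵀ = 0 := h1
    rw [← transpose_transpose (A X), h1', transpose_zero]
  cb := by
    intro X i j
    rw [dotProduct_comm]
    exact hR.cb X j i
  cab := by
    intro X i j
    change b i X ⬝ᵥ ((A X)ᵀ *ᵥ c j X) = 0
    rw [mulVec_transpose, dotProduct_comm, ← dotProduct_mulVec]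
    exact hR.cab X j i
  caab := by
    intro X i j
    change b i X ⬝ᵥ ((A X)ᵀ *ᵥ ((A X)ᵀ *ᵥ c j X)) = 0
    rw [mulVec_transpose, mulVec_transpose, dotProduct_comm, ← dotProduct_mulVec,
      ← dotProduct_mulVec]
    exact hR.caab X j i

theorem not_both (A : Q →ₗ[K] Matrix (Fin 3) (Fin 3) K) (b c : Fin 2 → Q →ₗ[K] (Fin 3 → K))
    (hR : Rel A b c) (hb : ∃ X Y i j, NP (b i X) (b j Y)) (hc : ∃ X Y i j, NP (c i X) (c j Y)) :
    Module.finrank K Q ≤ 10 := by
  by_cases h : ∀ X, ¬ NP (c 0 X) (c 1 X)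
  · exact not_both_aux A b c hR hb hc h
  · refine not_both_aux _ c b hR.transpose hc hb ?_
    push Not at h
    obtain ⟨Y, hY⟩ := h
    intro X hX
    obtain ⟨t, ht1, ht2⟩ := exists_np_np (a := b 0 X) (a' := b 0 Y) (b := b 1 X) (b' := b 1 Y)
        (c := c 0 X) (c' := c 0 Y) (d := c 1 X) (d' := c 1 Y) hX hY
    simp only [← map_add, ← map_smul, ← map_sub] at ht1 ht2
    exact np_np_false ht2 ht1 (hR.cb _ _ _) (hR.cb _ _ _) (hR.cb _ _ _) (hR.cb _ _ _)

end core

end Q35.FC
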