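import Mathlib
import Pool.Agent.Q35.FC.Core1

/-!
Some second order behaviour is large.
-/

set_option autoImplicit false

namespace Q35.FC

open Matrix

section sig

variable {K ι : Type*} [Field K] [Fintype ι]

/-- `N` has rank at least three and the images under `X` and `Y` of two vectors killed by `N` are
linearly independent. -/
def Sig2 (N X Y : Matrix ι ι K) : Prop :=
  3 ≤ N.rank ∧ ∃ w w' : ι → K, N *ᵥ w = 0 ∧ N *ᵥ w' = 0 ∧ NP (X *ᵥ w) (Y *ᵥ w')

theorem three_le_rank {N : Matrix ι ι K} {x y z : ι → K}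
    (h : ∀ a b c : K, a • (N *ᵥ x) + b • (N *ᵥ y) + c • (N *ᵥ z) = 0 → a = 0 ∧ b = 0 ∧ c = 0) :
    3 ≤ N.rank := by
  have hli : LinearIndependent K ![N *ᵥ x, N *ᵥ y, N *ᵥ z] := by
    rw [Fintype.linearIndependent_iff]
    intro g hg
    rw [Fin.sum_univ_three] at hg
    have := h (g 0) (g 1) (g 2) (by simpa using hg)
    intro i
    fin_cases i
    · exact this.1
    · exact this.2.1
    · exact this.2.2
  have h1 := finrank_span_eq_card hli
  have h2 : Submodule.span K (Set.range ![N *ᵥ x, N *ᵥ y, N *ᵥ z]) ≤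
      LinearMap.range N.mulVecLin := by
    rw [Submodule.span_le]
    rintro _ ⟨i, rfl⟩
    fin_cases i
    · exact ⟨x, rfl⟩
    · exact ⟨y, rfl⟩
    · exact ⟨z, rfl⟩
  have h3 := Submodule.finrank_mono h2
  rw [h1] at h3
  simpa [Matrix.rank] using h3

/-- block matrix with vanishing lower right block, from `A`, the columns `b_j` of `B` and the rows
`c_i` of `C`. -/
def mk (A : Matrix (Fin 3) (Fin 3) K) (b c : Fin 2 → Fin 3 → K) :
    Matrix (Fin 3 ⊕ Fin 2) (Fin 3 ⊕ Fin 2) K :=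
  fromBlocks A (of fun i j => b j i) (of fun i j => c i j) 0

theorem mk_transpose (A : Matrix (Fin 3) (Fin 3) K) (b c : Fin 2 → Fin 3 → K) :
    (mk A b c)ᵀ = mk Aᵀ c b := by
  unfold mk
  rw [fromBlocks_transpose]
  congr 1

theorem mk_mulVec (A : Matrix (Fin 3) (Fin 3) K) (b c : Fin 2 → Fin 3 → K) (x : Fin 3 → K)
    (y : Fin 2 → K) :
    mk A b c *ᵥ Sum.elim x y = Sum.elim (A *ᵥ x + (y 0 • b 0 + y 1 • b 1)) (fun i => c i ⬝ᵥ x) := by
  unfold mk
  rw [fromBlocks_mulVec]
  simp only [Sum.elim_comp_inl, Sum.elim_comp_inr, zero_mulVec, add_zero]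
  congr 1
  congr 1
  funext i
  simp only [mulVec, dotProduct, Fin.sum_univ_two, of_apply, Pi.add_apply, Pi.smul_apply,
    smul_eq_mul]
  ring

theorem np_elim {x x' : Fin 3 → K} (h : NP x x') (y y' : Fin 2 → K) :
    NP (Sum.elim x y) (Sum.elim x' y') := by
  obtain ⟨i, j, h⟩ := h
  exact ⟨Sum.inl i, Sum.inl j, h⟩

end sig

section lines

variable {K Q : Type*} [Field K] [AddCommGroup Q] [Module K Q]

/-- polynomial along lines -/
def PL (F : Q → K) : Prop := ∀ X Y, PF (fun t : K => F (X + t • (Y - X)))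

theorem PL.lin (F : Q →ₗ[K] K) : PL (fun X => F X) := by
  intro X Y
  have : (fun t : K => F (X + t • (Y - X))) = fun t => F X + t * (F (Y - X)) := by
    funext t
    rw [map_add, map_smul, smul_eq_mul]
  rw [this]
  exact (PF.const _).add (PF.id.mul (PF.const _))

theorem PL.mul {F G : Q → K} (hF : PL F) (hG : PL G) : PL (fun X => F X * G X) :=
  fun X Y => (hF X Y).mul (hG X Y)

theorem PL.eq_zero [Infinite K] {F G : Q → K} (hF : PL F) (hG : PL G)
    (h : ∀ X, F X * G X = 0) {Z : Q} (hZ : G Z ≠ 0) (X : Q) : F X = 0 := by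
  by_contra hX
  obtain ⟨t, h1, h2⟩ := (hF Z X).exists_ne (hG Z X) (a := 1) (b := 0) (by simpa using hX)
    (by simpa using hZ)
  exact (mul_ne_zero h1 h2) (h _)

end lines

section core

variable {K Q : Type*} [Field K] [AddCommGroup Q] [Module K Q] [FiniteDimensional K Q]

theorem surj_of_inj {W : Type*} [AddCommGroup W] [Module K W] [FiniteDimensional K W]
    (Ψ : Q →ₗ[K] W) (hinj : ∀ X, Ψ X = 0 → X = 0)
    (h : Module.finrank K W ≤ Module.finrank K Q) : Function.Surjective Ψ := by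
  have hi : Function.Injective Ψ := (injective_iff_map_eq_zero Ψ).2 hinj
  have h2 := LinearMap.finrank_le_finrank_of_injective hi
  exact (LinearMap.injective_iff_surjective_of_finrank_eq_finrank (le_antisymm h2 h)).1 hi

omit [FiniteDimensional K Q] in
/-- coefficient of a parallel family -/
theorem exists_coeff {b : Fin 2 → Q →ₗ[K] (Fin 3 → K)} {u : Fin 3 → K} (hu : u ≠ 0)
    (h : ∀ X j, ∃ t : K, b j X = t • u) :
    ∃ β : Fin 2 → Q →ₗ[K] K, ∀ X j, b j X = β j X • u := by
  obtain ⟨k, hk⟩ : ∃ k, u k ≠ 0 := by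
    by_contra hh
    push Not at hh
    exact hu (funext hh)
  refine ⟨fun j => (u k)⁻¹ • (LinearMap.proj k).comp (b j), fun X j => ?_⟩
  obtain ⟨t, ht⟩ := h X j
  rw [ht]
  congr 1
  simp only [LinearMap.smul_apply, LinearMap.comp_apply, LinearMap.proj_apply, ht, Pi.smul_apply,
    smul_eq_mul]
  field_simp

/-- the case `C = 0` -/
theorem case_c_zero (A : Q →ₗ[K] Matrix (Fin 3) (Fin 3) K) (b c : Fin 2 → Q →ₗ[K] (Fin 3 → K))
    (hR : Rel A b c) (hdim : 11 ≤ Module.finrank K Q)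
    (hb : ∀ X Y i j, ¬ NP (b i X) (b j Y)) (hc : ∀ X i, c i X = 0) :
    ∃ N X Y : Q, Sig2 (mk (A N) (fun j => b j N) (fun j => c j N))
      (mk (A X) (fun j => b j X) (fun j => c j X)) (mk (A Y) (fun j => b j Y) (fun j => c j Y)) := by
  by_cases hb0 : ∀ X j, b j X = 0
  · exfalso
    have hi : Function.Injective A := by
      rw [injective_iff_map_eq_zero]
      intro X hX
      exact hR.inj X hX (hb0 X) (hc X)
    have h2 := LinearMap.finrank_le_finrank_of_injective hi
    rw [Module.finrank_matrix] at h2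
    simp at h2
    omega
  · push Not at hb0
    obtain ⟨X0, j0, hu⟩ := hb0
    set u := b j0 X0 with hu'
    obtain ⟨β, hβ⟩ := exists_coeff hu (fun X j => par_of_not_np hu (hb X0 X j0 j))
    have hs : Function.Surjective (A.prod (LinearMap.pi β)) := by
      refine surj_of_inj _ ?_ ?_
      · intro X hX
        have h1 : A X = 0 := congrArg Prod.fst hX
        have h2 : ∀ j, β j X = 0 := fun j => congrFun (congrArg Prod.snd hX) j
        refine hR.inj X h1 (fun j => ?_) (hc X)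
        rw [hβ, h2, zero_smul]
      · rw [Module.finrank_prod, Module.finrank_matrix]
        simpa using hdim
    obtain ⟨u', e1⟩ := exists_dot_one hu
    rw [dotProduct_comm] at e1
    -- a vector not parallel to u
    obtain ⟨m, hm⟩ : ∃ m, NP u m := by
      obtain ⟨k, hk⟩ : ∃ k, u k ≠ 0 := by
        by_contra hh
        push Not at hh
        exact hu (funext hh)
      refine ⟨Pi.single (k + 1) 1, k, k + 1, ?_⟩
      have h3 : ∀ k : Fin 3, k ≠ k + 1 := by decide
      simp [h3 k, hk]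
    obtain ⟨N, hN⟩ := hs (1 - vecMulVec u u', Pi.single 0 1)
    obtain ⟨X, hX⟩ := hs (1, 0)
    obtain ⟨Y, hY⟩ := hs (vecMulVec m u', 0)
    have hN1 : A N = 1 - vecMulVec u u' := congrArg Prod.fst hN
    have hN2 : ∀ j, b j N = (Pi.single 0 1 : Fin 2 → K) j • u := fun j => by
      rw [hβ]; congr 1; exact congrFun (congrArg Prod.snd hN) j
    have hX1 : A X = 1 := congrArg Prod.fst hX
    have hY1 : A Y = vecMulVec m u' := congrArg Prod.fst hY
    have hA : ∀ x, A N *ᵥ x = x - (u' ⬝ᵥ x) • u := by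
      intro x
      rw [hN1, sub_mulVec, one_mulVec, vmv_mulVec]
    refine ⟨N, X, Y, ?_, Sum.elim u 0, Sum.elim u 0, ?_, ?_, ?_⟩
    · have hx : ∀ x : Fin 3 → K, mk (A N) (fun j => b j N) (fun j => c j N) *ᵥ
          Sum.elim x (Pi.single 0 (u' ⬝ᵥ x)) = Sum.elim x 0 := by
        intro x
        rw [mk_mulVec]
        congr 1
        · rw [hA, hN2, hN2]
          simp
        · funext i
          rw [hc, zero_dotProduct]
          rfl
      apply three_le_rank (x := Sum.elim (Pi.single 0 1) (Pi.single 0 (u' ⬝ᵥ (Pi.single 0 1))))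
        (y := Sum.elim (Pi.single 1 1) (Pi.single 0 (u' ⬝ᵥ (Pi.single 1 1))))
        (z := Sum.elim (Pi.single 2 1) (Pi.single 0 (u' ⬝ᵥ (Pi.single 2 1))))
      intro a b c h
      rw [hx, hx, hx] at h
      have h0 := congrFun h (Sum.inl 0)
      have h1 := congrFun h (Sum.inl 1)
      have h2 := congrFun h (Sum.inl 2)
      simp at h0 h1 h2
      exact ⟨h0, h1, h2⟩
    · rw [mk_mulVec]
      simp only [hA, hc, e1, Pi.zero_apply, zero_smul, add_zero, one_smul, sub_self,
        zero_dotProduct]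
      funext i; cases i <;> rfl
    · rw [mk_mulVec]
      simp only [hA, hc, e1, Pi.zero_apply, zero_smul, add_zero, one_smul, sub_self,
        zero_dotProduct]
      funext i; cases i <;> rfl
    · rw [mk_mulVec, mk_mulVec]
      apply np_elim
      rw [hX1, hY1, one_mulVec, vmv_mulVec, e1]
      simpa using hm

/-- two functionals on `3 × 3` matrices -/
def theta2 (v u m : Fin 3 → K) : Matrix (Fin 3) (Fin 3) K →ₗ[K] (K × K) :=
  (phi v u).prod (phi v m)

theorem theta2_apply (v u m : Fin 3 → K) (A : Matrix (Fin 3) (Fin 3) K) :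
    theta2 v u m A = (v ⬝ᵥ (A *ᵥ u), v ⬝ᵥ (A *ᵥ m)) := rfl

theorem finrank_ker_theta2 {v u m : Fin 3 → K} (hv : v ≠ 0) (hum : NP u m) :
    Module.finrank K (LinearMap.ker (theta2 v u m)) = 7 := by
  obtain ⟨u', m', e1, e2, e3, e4⟩ := hum.dual
  rw [dotProduct_comm] at e1 e2 e3 e4
  obtain ⟨p, hp⟩ := exists_dot_one hv
  have hs : LinearMap.range (theta2 v u m) = ⊤ := by
    rw [LinearMap.range_eq_top]
    rintro ⟨s0, s1⟩
    refine ⟨s0 • vecMulVec p u' + s1 • vecMulVec p m', ?_⟩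
    simp only [map_add, map_smul, theta2_apply, dot_vmv, e1, e2, e3, e4, hp]
    ext <;> simp
  have h := LinearMap.finrank_range_add_finrank_ker (theta2 v u m)
  rw [hs, finrank_top] at h
  have h1 : Module.finrank K (K × K) = 2 := by simp
  have h2 : Module.finrank K (Matrix (Fin 3) (Fin 3) K) = 9 := by
    rw [Module.finrank_matrix]; simp
  omega

/-- the case where `v` is a left eigenvector of all `A` -/
theorem case_left (A : Q →ₗ[K] Matrix (Fin 3) (Fin 3) K) (b c : Fin 2 → Q →ₗ[K] (Fin 3 → K))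
    (hR : Rel A b c) (hdim : 11 ≤ Module.finrank K Q) {u v m : Fin 3 → K} (hum : NP u m)
    (hv : v ≠ 0) (hvu : v ⬝ᵥ u = 0) (hvm : v ⬝ᵥ m = 0) (hb : ∀ X j, ∃ t : K, b j X = t • u)
    (hc : ∀ X j, ∃ t : K, c j X = t • v) (h1 : ∀ X, v ⬝ᵥ (A X *ᵥ u) = 0)
    (h2 : ∀ X, v ⬝ᵥ (A X *ᵥ m) = 0) :
    ∃ N X Y : Q, Sig2 (mk (A N) (fun j => b j N) (fun j => c j N))
      (mk (A X) (fun j => b j X) (fun j => c j X)) (mk (A Y) (fun j => b j Y) (fun j => c j Y)) := by
  obtain ⟨β, hβ⟩ := exists_coeff (np_left_ne hum) hb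
  obtain ⟨γ, hγ⟩ := exists_coeff hv hc
  have hmem : ∀ X, A X ∈ LinearMap.ker (theta2 v u m) := by
    intro X
    rw [LinearMap.mem_ker, theta2_apply, h1, h2]
    rfl
  let Ψ : Q →ₗ[K] (LinearMap.ker (theta2 v u m)) × (Fin 2 → K) × (Fin 2 → K) :=
    (A.codRestrict _ hmem).prod ((LinearMap.pi β).prod (LinearMap.pi γ))
  have hΨ : ∀ X, Ψ X = (⟨A X, hmem X⟩, (fun j => β j X), (fun j => γ j X)) := fun X => rfl
  have hs : Function.Surjective Ψ := by
    refine surj_of_inj _ ?_ ?_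
    · intro X hX
      rw [hΨ] at hX
      have e1 : A X = 0 := congrArg Subtype.val (congrArg Prod.fst hX)
      have e2 : ∀ j, β j X = 0 := fun j => congrFun (congrArg Prod.fst (congrArg Prod.snd hX)) j
      have e3 : ∀ j, γ j X = 0 := fun j => congrFun (congrArg Prod.snd (congrArg Prod.snd hX)) j
      refine hR.inj X e1 (fun j => ?_) (fun j => ?_)
      · rw [hβ, e2, zero_smul]
      · rw [hγ, e3, zero_smul]
    · rw [Module.finrank_prod, Module.finrank_prod, finrank_ker_theta2 hv hum]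
      simpa using hdim
  obtain ⟨u', m', e1, e2, e3, e4⟩ := hum.dual
  rw [dotProduct_comm] at e1 e2 e3 e4
  obtain ⟨n', hn'⟩ := exists_dot_one hv
  set n := n' - (m' ⬝ᵥ n') • m with hn
  have hvn : v ⬝ᵥ n = 1 := by
    rw [hn, dotProduct_sub, dotProduct_smul, hvm, hn']; simp
  have hmn : m' ⬝ᵥ n = 0 := by
    rw [hn, dotProduct_sub, dotProduct_smul, e4]; simp
  have hk : ∀ p q : Fin 3 → K, v ⬝ᵥ p = 0 → vecMulVec p q ∈ LinearMap.ker (theta2 v u m) := by
    intro p q hp
    rw [LinearMap.mem_ker, theta2_apply, dot_vmv, dot_vmv, hp, mul_zero, mul_zero]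
    rfl
  obtain ⟨N, hN⟩ := hs (⟨vecMulVec m m', hk _ _ hvm⟩, Pi.single 0 1, Pi.single 0 1)
  obtain ⟨X, hX⟩ := hs (⟨vecMulVec u u', hk _ _ hvu⟩, 0, 0)
  obtain ⟨Y, hY⟩ := hs (⟨vecMulVec m u', hk _ _ hvm⟩, 0, 0)
  rw [hΨ] at hN hX hY
  have hN1 : A N = vecMulVec m m' := congrArg Subtype.val (congrArg Prod.fst hN)
  have hN2 : ∀ j, b j N = (Pi.single 0 1 : Fin 2 → K) j • u := fun j => by
    rw [hβ]; congr 1; exact congrFun (congrArg Prod.fst (congrArg Prod.snd hN)) j
  have hN3 : ∀ j, c j N = (Pi.single 0 1 : Fin 2 → K) j • v := fun j => by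
    rw [hγ]; congr 1; exact congrFun (congrArg Prod.snd (congrArg Prod.snd hN)) j
  have hX1 : A X = vecMulVec u u' := congrArg Subtype.val (congrArg Prod.fst hX)
  have hY1 : A Y = vecMulVec m u' := congrArg Subtype.val (congrArg Prod.fst hY)
  have hNu : mk (A N) (fun j => b j N) (fun j => c j N) *ᵥ Sum.elim u 0 = 0 := by
    rw [mk_mulVec]
    have e : ∀ i, c i N ⬝ᵥ u = 0 := fun i => by rw [hN3, smul_dotProduct, hvu, smul_zero]
    simp only [hN1, vmv_mulVec, e3, e, Pi.zero_apply, zero_smul, add_zero]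
    funext i; cases i <;> rfl
  refine ⟨N, X, Y, ?_, Sum.elim u 0, Sum.elim u 0, hNu, hNu, ?_⟩
  · apply three_le_rank (x := Sum.elim m 0) (y := Sum.elim n 0)
        (z := Sum.elim (0 : Fin 3 → K) (Pi.single 0 1))
    intro s t r h
    have ea : mk (A N) (fun j => b j N) (fun j => c j N) *ᵥ Sum.elim m 0 = Sum.elim m 0 := by
      rw [mk_mulVec]
      have e : ∀ i, c i N ⬝ᵥ m = 0 := fun i => by rw [hN3, smul_dotProduct, hvm, smul_zero]
      simp only [hN1, vmv_mulVec, e4, e, Pi.zero_apply, zero_smul, add_zero, one_smul]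
      congr 1
    have eb : mk (A N) (fun j => b j N) (fun j => c j N) *ᵥ Sum.elim n 0 =
        Sum.elim (0 : Fin 3 → K) (Pi.single 0 1) := by
      rw [mk_mulVec]
      have e : ∀ i, c i N ⬝ᵥ n = (Pi.single 0 1 : Fin 2 → K) i := fun i => by
        rw [hN3, smul_dotProduct, hvn, smul_eq_mul, mul_one]
      simp only [hN1, vmv_mulVec, hmn, e, Pi.zero_apply, zero_smul, add_zero]
    have ec : mk (A N) (fun j => b j N) (fun j => c j N) *ᵥ
        Sum.elim (0 : Fin 3 → K) (Pi.single 0 1) = Sum.elim u 0 := by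
      rw [mk_mulVec]
      simp only [hN2, mulVec_zero, dotProduct_zero]
      congr 1
      simp
    rw [ea, eb, ec] at h
    have h0 := congrFun h (Sum.inr 0)
    simp at h0
    have hh : s • m + r • u = 0 := by
      funext i
      have := congrFun h (Sum.inl i)
      simpa using this
    have := np_iff.1 hum r s (by rw [add_comm]; exact hh)
    exact ⟨this.2, h0, this.1⟩
  · rw [mk_mulVec, mk_mulVec]
    apply np_elim
    rw [hX1, hY1, vmv_mulVec, vmv_mulVec, e1]
    simpa using hum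

/-- Some second order behaviour is large. -/
theorem exists_sig2 [Infinite K] (A : Q →ₗ[K] Matrix (Fin 3) (Fin 3) K)
    (b c : Fin 2 → Q →ₗ[K] (Fin 3 → K))
    (hR : Rel A b c) (hdim : 11 ≤ Module.finrank K Q)
    (hb : ∀ X Y i j, ¬ NP (b i X) (b j Y)) (hc : ∀ X Y i j, ¬ NP (c i X) (c j Y)) :
    (∃ N X Y : Q, Sig2 (mk (A N) (fun j => b j N) (fun j => c j N))
      (mk (A X) (fun j => b j X) (fun j => c j X)) (mk (A Y) (fun j => b j Y) (fun j => c j Y))) ∨
    ∃ N X Y : Q, Sig2 (mk (A N) (fun j => b j N) (fun j => c j N))ᵀ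
      (mk (A X) (fun j => b j X) (fun j => c j X))ᵀ
      (mk (A Y) (fun j => b j Y) (fun j => c j Y))ᵀ := by
  by_cases hc0 : ∀ X i, c i X = 0
  · exact Or.inl (case_c_zero A b c hR hdim hb hc0)
  by_cases hb0 : ∀ X i, b i X = 0
  · refine Or.inr ?_
    obtain ⟨N, X, Y, h⟩ := case_c_zero _ c b hR.transpose hdim hc hb0
    refine ⟨N, X, Y, ?_⟩
    rw [mk_transpose, mk_transpose, mk_transpose]
    exact h
  push Not at hc0 hb0
  obtain ⟨X0, i0, hu⟩ := hb0
  obtain ⟨X1, i1, hv⟩ := hc0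
  set u := b i0 X0 with hu'
  set v := c i1 X1 with hv'
  have hbp : ∀ X j, ∃ t : K, b j X = t • u := fun X j => par_of_not_np hu (hb X0 X i0 j)
  have hcp : ∀ X j, ∃ t : K, c j X = t • v := fun X j => par_of_not_np hv (hc X1 X i1 j)
  obtain ⟨β, hβ⟩ := exists_coeff hu hbp
  obtain ⟨γ, hγ⟩ := exists_coeff hv hcp
  have hβ0 : β i0 X0 ≠ 0 := by
    intro h
    exact hu (by rw [hu', hβ, h, zero_smul])
  have hγ0 : γ i1 X1 ≠ 0 := by
    intro h
    exact hv (by rw [hv', hγ, h, zero_smul])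
  -- product of the coefficients
  have hg : PL (fun X => γ i1 X * β i0 X) := (PL.lin _).mul (PL.lin _)
  obtain ⟨Z, hZ⟩ : ∃ Z, γ i1 Z * β i0 Z ≠ 0 := by
    by_contra hh
    push Not at hh
    exact hγ0 (PL.eq_zero (PL.lin (γ i1)) (PL.lin (β i0)) hh hβ0 X1)
  -- v · u = 0
  have hvu : v ⬝ᵥ u = 0 := by
    have := hR.cb Z i1 i0
    rw [hβ, hγ, smul_dotProduct, dotProduct_smul, smul_eq_mul, smul_eq_mul, ← mul_assoc] at this
    exact (mul_eq_zero.1 this).resolve_left hZ
  have h1 : ∀ X, v ⬝ᵥ (A X *ᵥ u) = 0 := by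
    refine PL.eq_zero (PL.lin ((phi v u).comp A)) hg ?_ hZ
    intro X
    have := hR.cab X i1 i0
    rw [hβ, hγ, smul_dotProduct, mulVec_smul, dotProduct_smul, smul_eq_mul, smul_eq_mul] at this
    linear_combination this
  have h11 : ∀ X, v ⬝ᵥ (A X *ᵥ (A X *ᵥ u)) = 0 := by
    refine PL.eq_zero (F := fun X => v ⬝ᵥ (A X *ᵥ (A X *ᵥ u))) ?_ hg ?_ hZ
    · intro X Y
      have : (fun t : K => v ⬝ᵥ (A (X + t • (Y - X)) *ᵥ (A (X + t • (Y - X)) *ᵥ u))) =
          fun t => v ⬝ᵥ (A X *ᵥ (A X *ᵥ u)) + t * (v ⬝ᵥ (A X *ᵥ (A (Y - X) *ᵥ u)) +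
            v ⬝ᵥ (A (Y - X) *ᵥ (A X *ᵥ u))) + t * t * (v ⬝ᵥ (A (Y - X) *ᵥ (A (Y - X) *ᵥ u))) := by
        funext t
        simp only [map_add, map_smul, add_mulVec, smul_mulVec, mulVec_add, mulVec_smul,
          dotProduct_add, dotProduct_smul, smul_eq_mul]
        ring
      rw [this]
      exact ((PF.const _).add (PF.id.mul (PF.const _))).add ((PF.id.mul PF.id).mul (PF.const _))
    · intro X
      have := hR.caab X i1 i0
      rw [hβ, hγ, smul_dotProduct, mulVec_smul, mulVec_smul, dotProduct_smul, smul_eq_mul,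
        smul_eq_mul] at this
      linear_combination this
  -- a second vector orthogonal to v
  have hperp := finrank_perp (Submodule.span K {v})
  rw [finrank_span_singleton hv] at hperp
  have hup : u ∈ perp (Submodule.span K {v}) := by
    intro y hy
    obtain ⟨s, rfl⟩ := Submodule.mem_span_singleton.1 hy
    rw [smul_dotProduct, hvu, smul_zero]
  obtain ⟨m, hm, hum⟩ : ∃ m, v ⬝ᵥ m = 0 ∧ NP u m := by
    by_contra hh
    push Not at hh
    have : perp (Submodule.span K {v}) ≤ Submodule.span K {u} := by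
      intro y hy
      have hy' : v ⬝ᵥ y = 0 := hy v (Submodule.mem_span_singleton_self v)
      obtain ⟨t, ht⟩ := par_of_not_np hu (hh y hy')
      rw [ht]
      exact Submodule.smul_mem _ _ (Submodule.mem_span_singleton_self u)
    have h3 := Submodule.finrank_mono this
    rw [finrank_span_singleton hu] at h3
    omega
  obtain ⟨u', m', e1, e2, e3, e4⟩ := hum.dual
  -- decomposition of vectors orthogonal to v
  have hdec : ∀ y, v ⬝ᵥ y = 0 → y = (u' ⬝ᵥ y) • u + (m' ⬝ᵥ y) • m := by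
    intro y hy
    have hmp : m ∈ perp (Submodule.span K {v}) := by
      intro y hy
      obtain ⟨s, rfl⟩ := Submodule.mem_span_singleton.1 hy
      rw [smul_dotProduct, hm, smul_zero]
    have hyp : y ∈ perp (Submodule.span K {v}) := by
      intro z hz
      obtain ⟨s, rfl⟩ := Submodule.mem_span_singleton.1 hz
      rw [smul_dotProduct, hy, smul_zero]
    have hle : Submodule.span K {u, m} ≤ perp (Submodule.span K {v}) := by
      rw [Submodule.span_le]
      rintro x (rfl | hx)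
      · exact hup
      · rw [Set.mem_singleton_iff.1 hx]; exact hmp
    have heq := Submodule.eq_of_le_of_finrank_le hle (by
      have := two_le_finrank_span hum
      omega)
    rw [← heq] at hyp
    obtain ⟨s, t, rfl⟩ := Submodule.mem_span_pair.1 hyp
    rw [dotProduct_comm] at e1 e2 e3 e4
    simp only [dotProduct_add, dotProduct_smul, e1, e2, e3, e4, smul_eq_mul, mul_one, mul_zero,
      add_zero, zero_add]
  -- `a21 * a32 = 0`
  have hprod : ∀ X, m' ⬝ᵥ (A X *ᵥ u) * (v ⬝ᵥ (A X *ᵥ m)) = 0 := by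
    intro X
    have := h11 X
    rw [hdec _ (h1 X), mulVec_add, mulVec_smul, mulVec_smul, dotProduct_add, dotProduct_smul,
      dotProduct_smul, h1, smul_zero, zero_add, smul_eq_mul] at this
    exact this
  by_cases h2 : ∀ X, v ⬝ᵥ (A X *ᵥ m) = 0
  · exact Or.inl (case_left A b c hR hdim hum hv hvu hm hbp hcp h1 h2)
  · push Not at h2
    obtain ⟨W, hW⟩ := h2
    have h3 : ∀ X, m' ⬝ᵥ (A X *ᵥ u) = 0 :=
      PL.eq_zero (PL.lin ((phi m' u).comp A)) (PL.lin ((phi v m).comp A)) hprod hW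
    refine Or.inr ?_
    have htr : ∀ (p q : Fin 3 → K) (X : Q), p ⬝ᵥ ((A X)ᵀ *ᵥ q) = q ⬝ᵥ (A X *ᵥ p) := by
      intro p q X
      rw [mulVec_transpose, dotProduct_comm, ← dotProduct_mulVec]
    have hvm' : NP v m' := by
      rw [np_iff]
      intro s t hst
      have h5 := congrArg (fun x => x ⬝ᵥ m) hst
      simp only [add_dotProduct, smul_dotProduct, hm, zero_dotProduct] at h5
      rw [dotProduct_comm m' m, e4] at h5
      have ht : t = 0 := by simpa using h5
      rw [ht, zero_smul, add_zero] at hst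
      exact ⟨(smul_eq_zero.1 hst).resolve_right hv, ht⟩
    obtain ⟨N, X, Y, h⟩ := case_left _ c b hR.transpose hdim (u := v) (v := u) (m := m') hvm' hu
      (by rw [dotProduct_comm]; exact hvu) e3 hcp hbp
      (fun X => by
        change u ⬝ᵥ ((A X)ᵀ *ᵥ v) = 0
        rw [htr]; exact h1 X)
      (fun X => by
        change u ⬝ᵥ ((A X)ᵀ *ᵥ m') = 0
        rw [htr]; exact h3 X)
    refine ⟨N, X, Y, ?_⟩
    rw [mk_transpose, mk_transpose, mk_transpose]
    exact h

end core

end Q35.FC
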