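import Mathlib
import Pool.Agent.Q35.FC.NP

/-!
Pencils of matrices of bounded rank: `D = 0` and `C A^k B = 0`.
-/

set_option autoImplicit false

namespace Q35.FC

open Matrix Polynomial

section pf

variable {K : Type*} [Field K]

theorem PF.sum {τ : Type*} (s : Finset τ) {f : τ → K → K} (hf : ∀ i ∈ s, PF (f i)) :
    PF (fun t => ∑ i ∈ s, f i t) := by
  classical
  induction s using Finset.induction_on with
  | empty => simpa using PF.const (0 : K)
  | insert a s ha ih =>
    simp only [Finset.sum_insert ha]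
    exact (hf a (by simp)).add (ih (fun i hi => hf i (by simp [hi])))

theorem PF.prod {τ : Type*} (s : Finset τ) {f : τ → K → K} (hf : ∀ i ∈ s, PF (f i)) :
    PF (fun t => ∏ i ∈ s, f i t) := by
  classical
  induction s using Finset.induction_on with
  | empty => simpa using PF.const (1 : K)
  | insert a s ha ih =>
    simp only [Finset.prod_insert ha]
    exact (hf a (by simp)).mul (ih (fun i hi => hf i (by simp [hi])))

theorem PF.det {N : Type*} [Fintype N] [DecidableEq N] {M : K → Matrix N N K}
    (h : ∀ i j, PF (fun t => M t i j)) : PF (fun t => (M t).det) := by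
  have : (fun t => (M t).det) = fun t => ∑ s : Equiv.Perm N,
      (((Equiv.Perm.sign s : ℤ) : K)) * ∏ i, M t (s i) i := by
    funext t
    rw [Matrix.det_apply']
  rw [this]
  exact PF.sum _ (fun s _ => (PF.const _).mul (PF.prod _ (fun i _ => h _ _)))

theorem PF.adj {N : Type*} [Fintype N] [DecidableEq N] {M : K → Matrix N N K}
    (h : ∀ i j, PF (fun t => M t i j)) (i j : N) : PF (fun t => (M t).adjugate i j) := by
  simp only [adjugate_apply]
  apply PF.det
  intro a b
  by_cases ha : a = j
  · subst ha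
    simp only [updateRow_self]
    exact PF.const _
  · simp only [updateRow_ne ha]
    exact h a b

theorem PF.mulVec {M N : Type*} [Fintype N] {A : K → Matrix M N K} {y : K → N → K}
    (h : ∀ i j, PF (fun t => A t i j)) (hy : ∀ j, PF (fun t => y t j)) (i : M) :
    PF (fun t => (A t *ᵥ y t) i) := by
  simp only [Matrix.mulVec, dotProduct]
  exact PF.sum _ (fun j _ => (h i j).mul (hy j))

theorem PF.cmulVec {M N : Type*} [Fintype N] (C : Matrix M N K) {y : K → N → K}
    (hy : ∀ j, PF (fun t => y t j)) (i : M) : PF (fun t => (C *ᵥ y t) i) :=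
  PF.mulVec (A := fun _ => C) (fun i j => PF.const (C i j)) hy i

theorem PF.eq_zero [Infinite K] {f g : K → K} (hf : PF f) (hg : PF g) (h : ∀ t, f t * g t = 0)
    {b : K} (hb : g b ≠ 0) (t : K) : f t = 0 := by
  by_contra ht
  obtain ⟨s, h1, h2⟩ := hf.exists_ne hg ht hb
  exact mul_ne_zero h1 h2 (h s)

end pf

section schur

variable {K r s : Type*} [Field K] [Fintype r] [Fintype s] [DecidableEq r]

theorem schur {P : Matrix r r K} {B : Matrix r s K} {C : Matrix s r K} {D : Matrix s s K}
    (h : (fromBlocks P B C D).rank ≤ Fintype.card r) (hP : P.det ≠ 0) (y : s → K) :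
    P.det • (D *ᵥ y) = C *ᵥ (P.adjugate *ᵥ (B *ᵥ y)) := by
  set M := fromBlocks P B C D with hM
  let ι : (r → K) →ₗ[K] (r ⊕ s → K) :=
    { toFun := fun x => Sum.elim x 0
      map_add' := by intro a b; funext i; cases i <;> simp
      map_smul' := by intro a b; funext i; cases i <;> simp }
  let f : (r → K) →ₗ[K] (r ⊕ s → K) := M.mulVecLin.comp ι
  have hf : ∀ x, f x = Sum.elim (P *ᵥ x) (C *ᵥ x) := by
    intro x
    change M *ᵥ Sum.elim x 0 = _
    rw [hM, fromBlocks_mulVec]
    simp
  have hi : Function.Injective f := by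
    rw [injective_iff_map_eq_zero]
    intro x hx
    rw [hf] at hx
    have h1 : P *ᵥ x = 0 := by
      funext i
      exact congrFun hx (Sum.inl i)
    exact Matrix.eq_zero_of_mulVec_eq_zero hP h1
  have hle : LinearMap.range f ≤ LinearMap.range M.mulVecLin := LinearMap.range_comp_le_range _ _
  have hfr : Module.finrank K (LinearMap.range f) = Fintype.card r := by
    rw [LinearMap.finrank_range_of_inj hi]; simp
  have heq := Submodule.eq_of_le_of_finrank_le hle (by rw [hfr]; exact h)
  have hy : Sum.elim (B *ᵥ y) (D *ᵥ y) ∈ LinearMap.range M.mulVecLin := by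
    refine ⟨Sum.elim 0 y, ?_⟩
    change M *ᵥ Sum.elim 0 y = _
    rw [hM, fromBlocks_mulVec]
    simp
  rw [← heq] at hy
  obtain ⟨x, hx⟩ := hy
  rw [hf] at hx
  have h1 : P *ᵥ x = B *ᵥ y := by
    funext i
    exact congrFun hx (Sum.inl i)
  have h2 : C *ᵥ x = D *ᵥ y := by
    funext i
    exact congrFun hx (Sum.inr i)
  rw [← h1, ← h2, mulVec_mulVec x P.adjugate P, adjugate_mul, smul_mulVec, one_mulVec,
    mulVec_smul]

variable [Infinite K] [DecidableEq s]

theorem rels {A : Matrix r r K} {B : Matrix r s K} {C : Matrix s r K} {D : Matrix s s K}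
    (h : ∀ t : K, (fromBlocks (1 + t • A) (t • B) (t • C) (t • D)).rank ≤ Fintype.card r) :
    D = 0 ∧ ∀ (k : ℕ) (y : s → K), C *ᵥ ((A ^ k) *ᵥ (B *ᵥ y)) = 0 := by
  have hent : ∀ i j, PF (fun t : K => (1 + t • A) i j) := by
    intro i j
    have : (fun t : K => (1 + t • A) i j) = fun t => (1 : Matrix r r K) i j + t * A i j := by
      funext t; simp
    rw [this]
    exact (PF.const _).add (PF.id.mul (PF.const _))
  have hdet : PF (fun t : K => (1 + t • A).det) := PF.det hent
  have hyt : ∀ (y : s → K) i, PF (fun t : K => ((1 + t • A).adjugate *ᵥ (B *ᵥ y)) i) := by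
    intro y i
    exact PF.mulVec (y := fun _ => B *ᵥ y) (fun i j => PF.adj hent i j)
      (fun j => PF.const ((B *ᵥ y) j)) i
  -- the Schur complement identity for all t
  have key : ∀ (t : K) (y : s → K) (i : s), (1 + t • A).det * (D *ᵥ y) i
      - t * (C *ᵥ ((1 + t • A).adjugate *ᵥ (B *ᵥ y))) i = 0 := by
    intro t y i
    refine PF.eq_zero (f := fun t => (1 + t • A).det * (D *ᵥ y) i
      - t * (C *ᵥ ((1 + t • A).adjugate *ᵥ (B *ᵥ y))) i) (g := fun t => t * (1 + t • A).det)
      ?_ (PF.id.mul hdet) ?_ (b := ?_) ?_ t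
    · exact (hdet.mul (PF.const _)).sub (PF.id.mul
        (PF.cmulVec C (y := fun t => (1 + t • A).adjugate *ᵥ (B *ᵥ y)) (hyt y) i))
    · intro t
      by_cases ht : t = 0
      · rw [ht]; simp
      by_cases hd : (1 + t • A).det = 0
      · rw [hd]; simp
      have := congrFun (schur (h t) hd y) i
      simp only [smul_mulVec, mulVec_smul, Pi.smul_apply, smul_eq_mul] at this
      have h2 : (1 + t • A).det * (D *ᵥ y) i
        - t * (C *ᵥ ((1 + t • A).adjugate *ᵥ (B *ᵥ y))) i = 0 := by
        have h3 : t * ((1 + t • A).det * (D *ᵥ y) i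
          - t * (C *ᵥ ((1 + t • A).adjugate *ᵥ (B *ᵥ y))) i) = 0 := by
          linear_combination this
        exact (mul_eq_zero.1 h3).resolve_left ht
      rw [h2, zero_mul]
    · exact Classical.choose (hdet.exists_ne' (a := 0) (b := 0) (by simp))
    · have := Classical.choose_spec (hdet.exists_ne' (a := 0) (b := 0) (by simp))
      exact mul_ne_zero this.2 this.1
  have hD : ∀ y, D *ᵥ y = 0 := by
    intro y
    funext i
    have := key 0 y i
    simpa using this
  have hD0 : D = 0 := by
    ext i j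
    have := congrFun (hD (Pi.single j 1)) i
    simpa using this
  refine ⟨hD0, ?_⟩
  -- one step
  have step : ∀ C' : Matrix s r K,
      (∀ (t : K) (y : s → K) (i : s), (C' *ᵥ ((1 + t • A).adjugate *ᵥ (B *ᵥ y))) i = 0) →
      (∀ (t : K) (y : s → K) (i : s),
        ((C' * A) *ᵥ ((1 + t • A).adjugate *ᵥ (B *ᵥ y))) i = 0) := by
    intro C' ih t y i
    refine PF.eq_zero (f := fun t => ((C' * A) *ᵥ ((1 + t • A).adjugate *ᵥ (B *ᵥ y))) i)
        (PF.cmulVec (C' * A) (y := fun t => (1 + t • A).adjugate *ᵥ (B *ᵥ y)) (hyt y) i) PF.id ?_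
        one_ne_zero t
    intro t
    -- (1 + tA) y_t = det • B y
    have e1 : (1 + t • A) *ᵥ ((1 + t • A).adjugate *ᵥ (B *ᵥ y)) =
        (1 + t • A).det • (B *ᵥ y) := by
      rw [mulVec_mulVec, mul_adjugate, smul_mulVec, one_mulVec]
    rw [add_mulVec, one_mulVec, smul_mulVec] at e1
    have e2 : t • (A *ᵥ ((1 + t • A).adjugate *ᵥ (B *ᵥ y))) =
        (1 + t • A).det • (B *ᵥ y) - (1 + t • A).adjugate *ᵥ (B *ᵥ y) := by
      rw [← e1]; abel
    have e3 := congrArg (fun z => (C' *ᵥ z) i) e2
    simp only [mulVec_smul, mulVec_sub, Pi.smul_apply, Pi.sub_apply, smul_eq_mul] at e3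
    have e4 := ih 0 y i
    simp only [zero_smul, add_zero, adjugate_one, one_mulVec] at e4
    rw [e4, ih t y i, mul_zero, sub_zero, mulVec_mulVec _ C' A] at e3
    linear_combination e3
  have h0 : ∀ (t : K) (y : s → K) (i : s),
      (C *ᵥ ((1 + t • A).adjugate *ᵥ (B *ᵥ y))) i = 0 := by
    intro t y i
    refine PF.eq_zero (f := fun t => (C *ᵥ ((1 + t • A).adjugate *ᵥ (B *ᵥ y))) i)
      (PF.cmulVec C (y := fun t => (1 + t • A).adjugate *ᵥ (B *ᵥ y)) (hyt y) i) PF.id ?_
      one_ne_zero t
    intro t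
    have := key t y i
    rw [hD y] at this
    simp only [Pi.zero_apply, mul_zero, zero_sub] at this
    linear_combination -this
  have hall : ∀ (k : ℕ) (t : K) (y : s → K) (i : s),
      ((C * A ^ k) *ᵥ ((1 + t • A).adjugate *ᵥ (B *ᵥ y))) i = 0 := by
    intro k
    induction k with
    | zero => simpa using h0
    | succ k ih =>
      have := step _ ih
      rw [pow_succ, ← Matrix.mul_assoc]
      exact this
  intro k y
  funext i
  have := hall k 0 y i
  simp only [zero_smul, add_zero, adjugate_one, one_mulVec] at this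
  rw [mulVec_mulVec]
  exact this

end schur

end Q35.FC
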