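import Mathlib
import Pool.Agent.Q35.FC.Schur

/-!
Normal forms; the dimension bound for spaces of matrices of bounded rank.
-/

set_option autoImplicit false

namespace Q35.FC

open Matrix

variable {K : Type*} [Field K]

theorem finrank_pairing {W1 W2 : Type*} [AddCommGroup W1] [Module K W1] [FiniteDimensional K W1]
    [AddCommGroup W2] [Module K W2] [FiniteDimensional K W2]
    (p : W2 →ₗ[K] Module.Dual K W1) (hp : Function.Injective p) (I : Submodule K W1)
    (J : Submodule K W2) (h : ∀ y ∈ J, ∀ x ∈ I, p y x = 0) :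
    Module.finrank K I + Module.finrank K J ≤ Module.finrank K W1 := by
  have hmem : ∀ y : J, (p.comp J.subtype) y ∈ I.dualAnnihilator := by
    intro y
    rw [Submodule.mem_dualAnnihilator]
    exact fun x hx => h y.1 y.2 x hx
  have hi : Function.Injective ((p.comp J.subtype).codRestrict _ hmem) := by
    intro a b hab
    have := congrArg Subtype.val hab
    exact Subtype.ext (hp this)
  have h1 := LinearMap.finrank_le_finrank_of_injective hi
  have h2 := Subspace.finrank_add_finrank_dualAnnihilator_eq I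
  omega

/-- the pairing `(B, C) ↦ tr (C B)` -/
def trPair (r s : Type*) [Fintype r] [Fintype s] :
    Matrix s r K →ₗ[K] Module.Dual K (Matrix r s K) where
  toFun C :=
    { toFun := fun B => trace (C * B)
      map_add' := by intro a b; rw [Matrix.mul_add, trace_add]
      map_smul' := by intro c a; rw [Matrix.mul_smul, trace_smul]; rfl }
  map_add' := by
    intro a b
    apply LinearMap.ext
    intro B
    change trace ((a + b) * B) = trace (a * B) + trace (b * B)
    rw [Matrix.add_mul, trace_add]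
  map_smul' := by
    intro c a
    apply LinearMap.ext
    intro B
    change trace ((c • a) * B) = c • trace (a * B)
    rw [Matrix.smul_mul, trace_smul]

theorem trPair_injective (r s : Type*) [Fintype r] [Fintype s] [DecidableEq r] [DecidableEq s] :
    Function.Injective (trPair (K := K) r s) := by
  rw [injective_iff_map_eq_zero]
  intro C hC
  rw [ext_iff_trace_mul_right]
  intro B
  rw [Matrix.zero_mul, trace_zero]
  exact LinearMap.congr_fun hC B

/-- simultaneous equivalence of matrices -/
def eqv {ι κ : Type*} [Fintype ι] [Fintype κ] (P : Matrix κ ι K) (R : Matrix ι κ K) :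
    Matrix ι ι K →ₗ[K] Matrix κ κ K where
  toFun X := P * X * R
  map_add' := by intro a b; rw [Matrix.mul_add, Matrix.add_mul]
  map_smul' := by intro c a; rw [Matrix.mul_smul, Matrix.smul_mul]; rfl

theorem eqv_apply {ι κ : Type*} [Fintype ι] [Fintype κ] (P : Matrix κ ι K) (R : Matrix ι κ K)
    (X : Matrix ι ι K) : eqv P R X = P * X * R := rfl

/-- normal form of a matrix of rank `r` -/
theorem exists_eqv {n : ℕ} (N : Matrix (Fin n) (Fin n) K) :
    ∃ (P : Matrix (Fin N.rank ⊕ Fin (n - N.rank)) (Fin n) K)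
      (P' : Matrix (Fin n) (Fin N.rank ⊕ Fin (n - N.rank)) K)
      (R : Matrix (Fin n) (Fin N.rank ⊕ Fin (n - N.rank)) K)
      (R' : Matrix (Fin N.rank ⊕ Fin (n - N.rank)) (Fin n) K),
      P' * P = 1 ∧ P * P' = 1 ∧ R' * R = 1 ∧ R * R' = 1 ∧
      eqv P R N = fromBlocks 1 0 0 0 := by
  obtain ⟨V, U, e, hV, hU, hE⟩ := exists_rank_normal_form N
  obtain ⟨V, rfl⟩ := hV
  obtain ⟨U, rfl⟩ := hU
  have hc : Fintype.card (Fin n) = n := Fintype.card_fin n
  revert e
  rw [hc]
  intro e hE
  refine ⟨(V : Matrix (Fin n) (Fin n) K).submatrix e.symm id,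
    ((V⁻¹ : (Matrix (Fin n) (Fin n) K)ˣ) : Matrix (Fin n) (Fin n) K).submatrix id e.symm,
    (U : Matrix (Fin n) (Fin n) K).submatrix id e.symm,
    ((U⁻¹ : (Matrix (Fin n) (Fin n) K)ˣ) : Matrix (Fin n) (Fin n) K).submatrix e.symm id,
    ?_, ?_, ?_, ?_, ?_⟩
  · rw [submatrix_mul_equiv]
    simp
  · rw [← submatrix_mul _ _ _ _ _ Function.bijective_id]
    simp
  · rw [← submatrix_mul _ _ _ _ _ Function.bijective_id]
    simp
  · rw [submatrix_mul_equiv]
    simp
  · rw [eqv_apply]
    have : (V : Matrix (Fin n) (Fin n) K).submatrix e.symm id * N *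
        (U : Matrix (Fin n) (Fin n) K).submatrix id e.symm =
        ((V : Matrix (Fin n) (Fin n) K) * N * (U : Matrix (Fin n) (Fin n) K)).submatrix
          e.symm e.symm := by
      ext i j
      simp [Matrix.mul_apply]
    rw [this, hE]
    simp

theorem eqv_rank_le {ι κ : Type*} [Fintype ι] [Fintype κ] (P : Matrix κ ι K) (R : Matrix ι κ K)
    (X : Matrix ι ι K) : (eqv P R X).rank ≤ X.rank :=
  (rank_mul_le_left _ _).trans (rank_mul_le_right _ _)

theorem eqv_injective {ι κ : Type*} [Fintype ι] [Fintype κ] [DecidableEq ι] {P : Matrix κ ι K}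
    {R : Matrix ι κ K} {P' : Matrix ι κ K} {R' : Matrix κ ι K} (hP : P' * P = 1)
    (hR : R * R' = 1) : Function.Injective (eqv P R) := by
  intro X Y h
  rw [eqv_apply, eqv_apply] at h
  have h2 := congrArg (fun Z => P' * Z * R') h
  simp only [Matrix.mul_assoc, hR, Matrix.mul_one] at h2
  rwa [← Matrix.mul_assoc, ← Matrix.mul_assoc, hP, Matrix.one_mul, Matrix.one_mul] at h2

/-- relations between the blocks -/
theorem block_rels [Infinite K] {r s : Type*} [Fintype r] [Fintype s] [DecidableEq r]
    [DecidableEq s] (Q : Submodule K (Matrix (r ⊕ s) (r ⊕ s) K))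
    (hE : fromBlocks 1 0 0 0 ∈ Q) (h : ∀ X ∈ Q, X.rank ≤ Fintype.card r)
    {X : Matrix (r ⊕ s) (r ⊕ s) K} (hX : X ∈ Q) :
    X.toBlocks₂₂ = 0 ∧
      ∀ (k : ℕ) (y : s → K), X.toBlocks₂₁ *ᵥ ((X.toBlocks₁₁ ^ k) *ᵥ (X.toBlocks₁₂ *ᵥ y)) = 0 := by
  apply rels
  intro t
  have h1 : fromBlocks (1 + t • X.toBlocks₁₁) (t • X.toBlocks₁₂) (t • X.toBlocks₂₁)
      (t • X.toBlocks₂₂) = fromBlocks 1 0 0 0 + t • X := by
    conv_rhs => rw [← fromBlocks_toBlocks X]
    rw [fromBlocks_smul, fromBlocks_add]
    simp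
  rw [h1]
  exact h _ (Q.add_mem hE (Q.smul_mem t hX))

theorem flanders_aux {Q : Type*} [AddCommGroup Q] [Module K Q] [FiniteDimensional K Q] {r s : ℕ}
    (α : Q →ₗ[K] Matrix (Fin r) (Fin r) K) (β : Q →ₗ[K] Matrix (Fin r) (Fin s) K)
    (γ : Q →ₗ[K] Matrix (Fin s) (Fin r) K)
    (hinj : ∀ X, α X = 0 → β X = 0 → γ X = 0 → X = 0) (hcb : ∀ X : Q, γ X * β X = 0) :
    Module.finrank K Q ≤ r * s + r * r := by
  have hcb2 : ∀ X Y : Q, β X = 0 → γ X * β Y = 0 := by
    intro X Y hX
    have := hcb (X + Y)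
    rw [map_add, map_add, hX, zero_add, Matrix.add_mul, hcb Y, add_zero] at this
    exact this
  have d1 := LinearMap.finrank_range_add_finrank_ker β
  have d2 := LinearMap.finrank_range_add_finrank_ker (γ.comp (LinearMap.ker β).subtype)
  have d3 : Module.finrank K (LinearMap.range β) +
      Module.finrank K (LinearMap.range (γ.comp (LinearMap.ker β).subtype)) ≤ r * s := by
    have := finrank_pairing (trPair (K := K) (Fin r) (Fin s)) (trPair_injective _ _)
      (LinearMap.range β) (LinearMap.range (γ.comp (LinearMap.ker β).subtype)) ?_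
    · rw [Module.finrank_matrix] at this
      simpa using this
    · rintro _ ⟨X, rfl⟩ _ ⟨Y, rfl⟩
      change trace (γ X.1 * β Y) = 0
      rw [hcb2 X.1 Y X.2, trace_zero]
  have d4 : Module.finrank K (LinearMap.ker (γ.comp (LinearMap.ker β).subtype)) ≤ r * r := by
    have hi : Function.Injective ((α.comp (LinearMap.ker β).subtype).comp
        (LinearMap.ker (γ.comp (LinearMap.ker β).subtype)).subtype) := by
      rw [injective_iff_map_eq_zero]
      intro X hX
      have e1 : α X.1.1 = 0 := hX
      have e2 : β X.1.1 = 0 := X.1.2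
      have e3 : γ X.1.1 = 0 := X.2
      exact Subtype.ext (Subtype.ext (hinj _ e1 e2 e3))
    have := LinearMap.finrank_le_finrank_of_injective hi
    rw [Module.finrank_matrix] at this
    simpa using this
  omega

/-- Flanders' dimension bound -/
theorem flanders [Infinite K] {n : ℕ} (Q : Submodule K (Matrix (Fin n) (Fin n) K))
    {N : Matrix (Fin n) (Fin n) K} (hN : N ∈ Q) (h : ∀ A ∈ Q, A.rank ≤ N.rank) :
    Module.finrank K Q ≤ N.rank * n := by
  have hrn : N.rank ≤ n := N.rank_le_height
  obtain ⟨P, P', R, R', h1, -, -, h2, hE⟩ := exists_eqv N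
  have hinj := eqv_injective h1 h2
  set Φ := (eqv P R).comp Q.subtype with hΦ
  have hr : ∀ X ∈ LinearMap.range Φ, X.rank ≤ Fintype.card (Fin N.rank) := by
    rintro _ ⟨X, rfl⟩
    rw [Fintype.card_fin]
    exact (eqv_rank_le P R _).trans (h _ X.2)
  have hE' : fromBlocks 1 0 0 0 ∈ LinearMap.range Φ := ⟨⟨N, hN⟩, hE⟩
  have hrel := fun X : Q => block_rels (LinearMap.range Φ) hE' hr (X := Φ X) ⟨X, rfl⟩
  have hle := flanders_aux (Q := Q)
    (α := { toFun := fun X => (Φ X).toBlocks₁₁
            map_add' := by intro a b; rw [map_add]; rfl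
            map_smul' := by intro c a; rw [map_smul]; rfl })
    (β := { toFun := fun X => (Φ X).toBlocks₁₂
            map_add' := by intro a b; rw [map_add]; rfl
            map_smul' := by intro c a; rw [map_smul]; rfl })
    (γ := { toFun := fun X => (Φ X).toBlocks₂₁
            map_add' := by intro a b; rw [map_add]; rfl
            map_smul' := by intro c a; rw [map_smul]; rfl })
    (by
      intro X e1 e2 e3
      have e1 : (Φ X).toBlocks₁₁ = 0 := e1
      have e2 : (Φ X).toBlocks₁₂ = 0 := e2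
      have e3 : (Φ X).toBlocks₂₁ = 0 := e3
      have e4 : (Φ X).toBlocks₂₂ = 0 := (hrel X).1
      have e5 : Φ X = 0 := by
        rw [← fromBlocks_toBlocks (Φ X), e1, e2, e3, e4, fromBlocks_zero]
      have e6 : (X : Matrix (Fin n) (Fin n) K) = 0 := hinj (by rw [map_zero]; exact e5)
      exact Subtype.ext e6)
    (by
      intro X
      change (Φ X).toBlocks₂₁ * (Φ X).toBlocks₁₂ = 0
      apply Matrix.ext_of_mulVec_single
      intro j
      have := (hrel X).2 0 (Pi.single j 1)
      rw [pow_zero, one_mulVec, mulVec_mulVec] at this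
      rw [Matrix.zero_mulVec]
      exact this)
  have : N.rank * n = N.rank * (n - N.rank) + N.rank * N.rank := by
    rw [← Nat.mul_add]
    congr 1
    omega
  omega

end Q35.FC
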