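import Mathlib
import Pool.Agent.Q35.FC.Core2
import Pool.Agent.Q35.FC.Flanders
import Pool.Agent.Q35.EC.Zar

/-!
`Sig2` under equivalence; `Sig2` is an open condition; linear spaces of dimension 11.
-/

set_option autoImplicit false

namespace Q35.FC

open Matrix

section transfer

set_option linter.unusedSectionVars false

variable {K ι κ : Type*} [Field K] [Fintype ι] [Fintype κ] [DecidableEq ι] [DecidableEq κ]

theorem NP.of_mulVec {ι κ : Type*} [Fintype ι] {P : Matrix κ ι K} {a b : ι → K}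
    (h : NP (P *ᵥ a) (P *ᵥ b)) : NP a b := by
  rw [np_iff] at h ⊢
  intro s t e
  apply h
  rw [← mulVec_smul, ← mulVec_smul, ← mulVec_add, e, mulVec_zero]

theorem Sig2.back {P : Matrix κ ι K} {R : Matrix ι κ K} {P' : Matrix ι κ K} (hP : P' * P = 1)
    {N X Y : Matrix ι ι K} (h : Sig2 (eqv P R N) (eqv P R X) (eqv P R Y)) : Sig2 N X Y := by
  obtain ⟨h1, w, w', h2, h3, h4⟩ := h
  have hk : ∀ w, eqv P R N *ᵥ w = 0 → N *ᵥ (R *ᵥ w) = 0 := by
    intro w hw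
    rw [eqv_apply, ← mulVec_mulVec, ← mulVec_mulVec] at hw
    have := congrArg (fun z => P' *ᵥ z) hw
    simp only [mulVec_mulVec, mulVec_zero] at this
    rw [← Matrix.mul_assoc, hP, Matrix.one_mul] at this
    rw [mulVec_mulVec]
    exact this
  refine ⟨h1.trans (eqv_rank_le P R N), R *ᵥ w, R *ᵥ w', hk w h2, hk w' h3, ?_⟩
  apply NP.of_mulVec (P := P)
  rw [eqv_apply, eqv_apply, ← mulVec_mulVec, ← mulVec_mulVec, ← mulVec_mulVec,
    ← mulVec_mulVec] at h4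
  exact h4

theorem Sig2.forward {P : Matrix κ ι K} {R : Matrix ι κ K} {P' : Matrix ι κ K}
    {R' : Matrix κ ι K} (hP : P' * P = 1) (hP' : P * P' = 1) (hR : R * R' = 1)
    {N X Y : Matrix ι ι K} (h : Sig2 N X Y) : Sig2 (eqv P R N) (eqv P R X) (eqv P R Y) := by
  have hinv : ∀ X : Matrix ι ι K, eqv P' R' (eqv P R X) = X := by
    intro X
    rw [eqv_apply, eqv_apply]
    calc P' * (P * X * R) * R' = (P' * P) * X * (R * R') := by simp only [Matrix.mul_assoc]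
      _ = X := by rw [hP, hR, Matrix.one_mul, Matrix.mul_one]
  apply Sig2.back (P := P') (R := R') hP'
  rw [hinv, hinv, hinv]
  exact h

theorem eqv_transpose (P : Matrix κ ι K) (R : Matrix ι κ K) (X : Matrix ι ι K) :
    (eqv P R X)ᵀ = eqv Rᵀ Pᵀ Xᵀ := by
  rw [eqv_apply, eqv_apply, transpose_mul, transpose_mul, Matrix.mul_assoc]

end transfer

section blocks

variable {K : Type*} [Field K]

/-- the upper left block -/
def bA : Matrix (Fin 3 ⊕ Fin 2) (Fin 3 ⊕ Fin 2) K →ₗ[K] Matrix (Fin 3) (Fin 3) K where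
  toFun X := X.toBlocks₁₁
  map_add' _ _ := rfl
  map_smul' _ _ := rfl

/-- the columns of the upper right block -/
def bB (j : Fin 2) : Matrix (Fin 3 ⊕ Fin 2) (Fin 3 ⊕ Fin 2) K →ₗ[K] (Fin 3 → K) where
  toFun X := fun i => X (Sum.inl i) (Sum.inr j)
  map_add' _ _ := rfl
  map_smul' _ _ := rfl

/-- the rows of the lower left block -/
def bC (i : Fin 2) : Matrix (Fin 3 ⊕ Fin 2) (Fin 3 ⊕ Fin 2) K →ₗ[K] (Fin 3 → K) where
  toFun X := fun j => X (Sum.inr i) (Sum.inl j)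
  map_add' _ _ := rfl
  map_smul' _ _ := rfl

theorem mk_blocks {X : Matrix (Fin 3 ⊕ Fin 2) (Fin 3 ⊕ Fin 2) K} (h : X.toBlocks₂₂ = 0) :
    mk (bA X) (fun j => bB j X) (fun i => bC i X) = X := by
  conv_rhs => rw [← fromBlocks_toBlocks X]
  unfold mk
  rw [h]
  rfl

theorem one_eq_mk : (fromBlocks 1 0 0 0 : Matrix (Fin 3 ⊕ Fin 2) (Fin 3 ⊕ Fin 2) K) =
    mk 1 0 0 := rfl

/-- `Sig2` at the normal form -/
theorem sig2_one {X Y : Matrix (Fin 3 ⊕ Fin 2) (Fin 3 ⊕ Fin 2) K} (hX : X.toBlocks₂₂ = 0)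
    (hY : Y.toBlocks₂₂ = 0) :
    Sig2 (fromBlocks 1 0 0 0) X Y ↔ ∃ i j, NP (bB i X) (bB j Y) := by
  constructor
  · rintro ⟨-, w, w', h1, h2, h3⟩
    have hw : ∀ w, (fromBlocks 1 0 0 0 : Matrix (Fin 3 ⊕ Fin 2) (Fin 3 ⊕ Fin 2) K) *ᵥ w = 0 →
        w = Sum.elim (0 : Fin 3 → K) (w ∘ Sum.inr) := by
      intro w hw
      rw [← Sum.elim_comp_inl_inr w, one_eq_mk, mk_mulVec] at hw
      funext i
      rcases i with i | i
      · have := congrFun hw (Sum.inl i)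
        simpa using this
      · rfl
    rw [hw w h1, hw w' h2, ← mk_blocks hX, ← mk_blocks hY, mk_mulVec, mk_mulVec] at h3
    by_contra hc
    push Not at hc
    obtain ⟨i, j, h3⟩ := h3
    apply h3
    rcases i with i | i <;> rcases j with j | j
    · have h00 := not_np_iff.1 (hc 0 0) i j
      have h01 := not_np_iff.1 (hc 0 1) i j
      have h10 := not_np_iff.1 (hc 1 0) i j
      have h11 := not_np_iff.1 (hc 1 1) i j
      simp only [Sum.elim_inl, Sum.elim_inr, mulVec_zero, zero_add, Function.comp_apply,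
        Pi.add_apply, Pi.smul_apply, smul_eq_mul]
      linear_combination w (Sum.inr 0) * w' (Sum.inr 0) * h00 +
        w (Sum.inr 0) * w' (Sum.inr 1) * h01 + w (Sum.inr 1) * w' (Sum.inr 0) * h10 +
        w (Sum.inr 1) * w' (Sum.inr 1) * h11
    · simp
    · simp
    · simp
  · rintro ⟨i, j, h⟩
    refine ⟨?_, Sum.elim 0 (Pi.single i 1), Sum.elim 0 (Pi.single j 1), ?_, ?_, ?_⟩
    · apply three_le_rank (x := Sum.elim (Pi.single 0 1) 0) (y := Sum.elim (Pi.single 1 1) 0)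
        (z := Sum.elim (Pi.single 2 1) 0)
      intro a b c e
      rw [one_eq_mk, mk_mulVec, mk_mulVec, mk_mulVec] at e
      have h0 := congrFun e (Sum.inl 0)
      have h1 := congrFun e (Sum.inl 1)
      have h2 := congrFun e (Sum.inl 2)
      simp at h0 h1 h2
      exact ⟨h0, h1, h2⟩
    · rw [one_eq_mk, mk_mulVec]
      funext i; cases i <;> simp
    · rw [one_eq_mk, mk_mulVec]
      funext i; cases i <;> simp
    · rw [← mk_blocks hX, ← mk_blocks hY, mk_mulVec, mk_mulVec]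
      have hs : ∀ (X : Matrix (Fin 3 ⊕ Fin 2) (Fin 3 ⊕ Fin 2) K) (i : Fin 2),
          (Pi.single i 1 : Fin 2 → K) 0 • bB 0 X + (Pi.single i 1 : Fin 2 → K) 1 • bB 1 X =
            bB i X := by
        intro X i
        fin_cases i <;> simp
      rw [hs, hs]
      simp only [mulVec_zero, zero_add]
      exact np_elim h _ _

theorem sig2_one_transpose {X Y : Matrix (Fin 3 ⊕ Fin 2) (Fin 3 ⊕ Fin 2) K}
    (hX : X.toBlocks₂₂ = 0) (hY : Y.toBlocks₂₂ = 0) :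
    Sig2 (fromBlocks 1 0 0 0)ᵀ Xᵀ Yᵀ ↔ ∃ i j, NP (bC i X) (bC j Y) := by
  have h1 : (fromBlocks 1 0 0 0 : Matrix (Fin 3 ⊕ Fin 2) (Fin 3 ⊕ Fin 2) K)ᵀ =
      fromBlocks 1 0 0 0 := by
    rw [fromBlocks_transpose]; simp
  have h2 : ∀ {X : Matrix (Fin 3 ⊕ Fin 2) (Fin 3 ⊕ Fin 2) K}, X.toBlocks₂₂ = 0 →
      Xᵀ.toBlocks₂₂ = 0 := by
    intro X hX
    ext i j
    exact congrFun (congrFun hX j) i
  rw [h1, sig2_one (h2 hX) (h2 hY)]
  rfl

end blocks

section space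

variable {K : Type*} [Field K] [Infinite K]

/-- relations for the blocks of a space of matrices of rank at most three in normal form -/
theorem rel_of {Q : Type*} [AddCommGroup Q] [Module K Q]
    (Φ : Q →ₗ[K] Matrix (Fin 3 ⊕ Fin 2) (Fin 3 ⊕ Fin 2) K)
    (hinj : Function.Injective Φ) (hE : fromBlocks 1 0 0 0 ∈ LinearMap.range Φ)
    (hr : ∀ X, (Φ X).rank ≤ 3) :
    (∀ X, (Φ X).toBlocks₂₂ = 0) ∧
      Rel (bA.comp Φ) (fun j => (bB j).comp Φ) (fun i => (bC i).comp Φ) := by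
  have hrel := fun X : Q => block_rels (LinearMap.range Φ) hE (by
    rintro _ ⟨X, rfl⟩
    rw [Fintype.card_fin]
    exact hr X) (X := Φ X) ⟨X, rfl⟩
  have key : ∀ (X : Q) (k : ℕ) (i j : Fin 2),
      bC i (Φ X) ⬝ᵥ ((bA (Φ X) ^ k) *ᵥ bB j (Φ X)) = 0 := by
    intro X k i j
    have := congrFun ((hrel X).2 k (Pi.single j 1)) i
    rw [mulVec_single_one] at this
    exact this
  refine ⟨fun X => (hrel X).1, ?_, ?_, ?_, ?_⟩
  · intro X h1 h2 h3
    apply hinj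
    rw [map_zero, ← mk_blocks (hrel X).1]
    have h1 : bA (Φ X) = 0 := h1
    have h2 : ∀ j, bB j (Φ X) = 0 := h2
    have h3 : ∀ i, bC i (Φ X) = 0 := h3
    rw [h1]
    have h2' : (fun j => bB j (Φ X)) = 0 := funext h2
    have h3' : (fun j => bC j (Φ X)) = 0 := funext h3
    rw [h2', h3']
    ext i j
    cases i <;> cases j <;> rfl
  · intro X i j
    have := key X 0 i j
    rw [pow_zero, one_mulVec] at this
    exact this
  · intro X i j
    have := key X 1 i j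
    rw [pow_one] at this
    exact this
  · intro X i j
    have := key X 2 i j
    rw [pow_two, ← mulVec_mulVec] at this
    exact this

omit [Infinite K] in
theorem exists_eqv3 (N : Matrix (Fin 5) (Fin 5) K) (h : N.rank = 3) :
    ∃ (P : Matrix (Fin 3 ⊕ Fin 2) (Fin 5) K)
      (P' : Matrix (Fin 5) (Fin 3 ⊕ Fin 2) K)
      (R : Matrix (Fin 5) (Fin 3 ⊕ Fin 2) K)
      (R' : Matrix (Fin 3 ⊕ Fin 2) (Fin 5) K),
      P' * P = 1 ∧ P * P' = 1 ∧ R' * R = 1 ∧ R * R' = 1 ∧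
      eqv P R N = fromBlocks 1 0 0 0 := by
  have := exists_eqv N
  rw [h] at this
  exact this

/-- the two kinds of behaviour exclude each other at one matrix `N` -/
theorem not_both_at (Q : Submodule K (Matrix (Fin 5) (Fin 5) K)) (hr : ∀ X ∈ Q, X.rank ≤ 3)
    (hdim : 11 ≤ Module.finrank K Q) {N X1 Y1 X2 Y2 : Matrix (Fin 5) (Fin 5) K} (hN : N ∈ Q)
    (hX1 : X1 ∈ Q) (hY1 : Y1 ∈ Q) (hX2 : X2 ∈ Q) (hY2 : Y2 ∈ Q) (h1 : Sig2 N X1 Y1)
    (h2 : Sig2 Nᵀ X2ᵀ Y2ᵀ) : False := by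
  have hN3 : N.rank = 3 := le_antisymm (hr N hN) h1.1
  obtain ⟨P, P', R, R', e1, e2, e3, e4, hE⟩ := exists_eqv3 N hN3
  obtain ⟨hD, hR⟩ := rel_of ((eqv P R).comp Q.subtype)
    ((eqv_injective e1 e4).comp Subtype.val_injective) ⟨⟨N, hN⟩, hE⟩
    (fun X => (eqv_rank_le P R _).trans (hr _ X.2))
  have h1' := h1.forward e1 e2 e4
  rw [hE] at h1'
  have h1' := (sig2_one (hD ⟨X1, hX1⟩) (hD ⟨Y1, hY1⟩)).1 h1'
  have h2' := h2.forward (P := Rᵀ) (R := Pᵀ) (P' := R'ᵀ) (R' := P'ᵀ)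
    (by rw [← transpose_mul, e4, transpose_one]) (by rw [← transpose_mul, e3, transpose_one])
    (by rw [← transpose_mul, e1, transpose_one])
  rw [← eqv_transpose, ← eqv_transpose, ← eqv_transpose, hE] at h2'
  have h2' := (sig2_one_transpose (hD ⟨X2, hX2⟩) (hD ⟨Y2, hY2⟩)).1 h2'
  obtain ⟨i, j, hij⟩ := h1'
  obtain ⟨i', j', hij'⟩ := h2'
  have := not_both _ _ _ hR ⟨⟨X1, hX1⟩, ⟨Y1, hY1⟩, i, j, hij⟩ ⟨⟨X2, hX2⟩, ⟨Y2, hY2⟩, i', j', hij'⟩
  omega

/-- one of the two kinds of behaviour occurs -/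
theorem exists_sig (Q : Submodule K (Matrix (Fin 5) (Fin 5) K)) (hr : ∀ X ∈ Q, X.rank ≤ 3)
    (hdim : 11 ≤ Module.finrank K Q) :
    (∃ N ∈ Q, ∃ X ∈ Q, ∃ Y ∈ Q, Sig2 N X Y) ∨ ∃ N ∈ Q, ∃ X ∈ Q, ∃ Y ∈ Q, Sig2 Nᵀ Xᵀ Yᵀ := by
  -- a matrix of maximal rank
  obtain ⟨N, hN, hmax⟩ : ∃ N ∈ Q, ∀ A ∈ Q, A.rank ≤ N.rank := by
    obtain ⟨N, hN, hmin⟩ := WellFounded.has_min (measure
      (fun A : Matrix (Fin 5) (Fin 5) K => 5 - A.rank)).wf (Q : Set _) ⟨0, Q.zero_mem⟩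
    refine ⟨N, hN, fun A hA => ?_⟩
    have h := hmin A hA
    have h1 := A.rank_le_height
    have h2 := N.rank_le_height
    change ¬ (5 - A.rank < 5 - N.rank) at h
    omega
  have hN3 : N.rank = 3 := by
    have := flanders Q hN hmax
    have := hr N hN
    omega
  obtain ⟨P, P', R, R', e1, e2, e3, e4, hE⟩ := exists_eqv3 N hN3
  obtain ⟨hD, hR⟩ := rel_of ((eqv P R).comp Q.subtype)
    ((eqv_injective e1 e4).comp Subtype.val_injective) ⟨⟨N, hN⟩, hE⟩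
    (fun X => (eqv_rank_le P R _).trans (hr _ X.2))
  have backT : ∀ {N X Y : Matrix (Fin 5) (Fin 5) K},
      Sig2 (eqv P R N)ᵀ (eqv P R X)ᵀ (eqv P R Y)ᵀ → Sig2 Nᵀ Xᵀ Yᵀ := by
    intro N X Y h
    rw [eqv_transpose, eqv_transpose, eqv_transpose] at h
    exact h.back (P' := R'ᵀ) (by rw [← transpose_mul, e4, transpose_one])
  by_cases hb : ∃ (X Y : Q) (i j : Fin 2), NP (((bB i).comp ((eqv P R).comp Q.subtype)) X)
      (((bB j).comp ((eqv P R).comp Q.subtype)) Y)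
  · obtain ⟨X, Y, i, j, hij⟩ := hb
    refine Or.inl ⟨N, hN, X, X.2, Y, Y.2, ?_⟩
    apply Sig2.back (P := P) (R := R) e1
    rw [hE]
    exact (sig2_one (hD X) (hD Y)).2 ⟨i, j, hij⟩
  by_cases hc : ∃ (X Y : Q) (i j : Fin 2), NP (((bC i).comp ((eqv P R).comp Q.subtype)) X)
      (((bC j).comp ((eqv P R).comp Q.subtype)) Y)
  · obtain ⟨X, Y, i, j, hij⟩ := hc
    refine Or.inr ⟨N, hN, X, X.2, Y, Y.2, ?_⟩
    apply backT
    rw [hE]
    exact (sig2_one_transpose (hD X) (hD Y)).2 ⟨i, j, hij⟩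
  push Not at hb hc
  have hmk : ∀ X : Q, mk ((bA.comp ((eqv P R).comp Q.subtype)) X)
      (fun j => ((bB j).comp ((eqv P R).comp Q.subtype)) X)
      (fun j => ((bC j).comp ((eqv P R).comp Q.subtype)) X) = eqv P R X := fun X =>
    mk_blocks (hD X)
  rcases exists_sig2 _ _ _ hR hdim hb hc with ⟨N, X, Y, h⟩ | ⟨N, X, Y, h⟩
  · rw [hmk, hmk, hmk] at h
    exact Or.inl ⟨N, N.2, X, X.2, Y, Y.2, h.back e1⟩
  · rw [hmk, hmk, hmk] at h
    exact Or.inr ⟨N, N.2, X, X.2, Y, Y.2, backT h⟩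

end space

end Q35.FC
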