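import Mathlib
import Pool.Agent.Q35.FC.Sig

/-!
`Sig2` is a Zariski open condition on matrices of rank at most three.
-/

set_option autoImplicit false

namespace Q35.FC

open Matrix Q35.EC

variable {K : Type*} [Field K]

abbrev M5 (K : Type*) := Matrix (Fin 5) (Fin 5) K

section poly

variable {σ M N L : Type*}

/-- all entries are polynomial functions -/
def MP (A : (σ → K) → Matrix M N K) : Prop := ∀ i j, (fun x => A x i j) ∈ polyFun σ K

/-- all entries are polynomial functions -/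
def VP (u : (σ → K) → N → K) : Prop := ∀ j, (fun x => u x j) ∈ polyFun σ K

theorem MP.const (A : Matrix M N K) : MP (fun _ : σ → K => A) := fun i j => const_mem (A i j)

theorem VP.const (u : N → K) : VP (fun _ : σ → K => u) := fun j => const_mem (u j)

theorem MP.mul [Fintype N] {A : (σ → K) → Matrix M N K} {B : (σ → K) → Matrix N L K} (hA : MP A)
    (hB : MP B) : MP (fun x => A x * B x) := by
  intro i j
  simp only [Matrix.mul_apply]
  exact fsum_mem _ (fun l _ => fmul_mem (hA i l) (hB l j))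

theorem MP.mulVec [Fintype N] {A : (σ → K) → Matrix M N K} {u : (σ → K) → N → K} (hA : MP A)
    (hu : VP u) : VP (fun x => A x *ᵥ u x) := by
  intro i
  simp only [Matrix.mulVec, dotProduct]
  exact fsum_mem _ (fun l _ => fmul_mem (hA i l) (hu l))

theorem MP.adj [Fintype N] [DecidableEq N] {A : (σ → K) → Matrix N N K} (hA : MP A) :
    MP (fun x => (A x).adjugate) := by
  intro i j
  simp only [Matrix.adjugate_apply]
  apply fdet_mem
  intro a b
  simp only [Matrix.updateRow_apply]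
  by_cases h : a = j
  · simp only [h, if_true]
    exact const_mem _
  · simp only [h, if_false]
    exact hA a b

theorem MP.transpose {A : (σ → K) → Matrix M N K} (hA : MP A) : MP (fun x => (A x)ᵀ) :=
  fun i j => hA j i

theorem VP.smul {d : (σ → K) → K} {u : (σ → K) → N → K} (hd : d ∈ polyFun σ K) (hu : VP u) :
    VP (fun x => d x • u x) := fun j => fmul_mem hd (hu j)

theorem VP.sub {u v : (σ → K) → N → K} (hu : VP u) (hv : VP v) :
    VP (fun x => u x - v x) := fun j => fsub_mem (hu j) (hv j)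

end poly

/-- a vector which is killed by `N` if `N` has rank three and `det (L N R) ≠ 0` -/
def kap (L : Matrix (Fin 3) (Fin 5) K) (R : Matrix (Fin 5) (Fin 3) K) (w : Fin 5 → K) (N : M5 K) :
    Fin 5 → K :=
  (L * N * R).det • w - R *ᵥ ((L * N * R).adjugate *ᵥ (L *ᵥ (N *ᵥ w)))

theorem kap_poly {σ : Type*} (L : Matrix (Fin 3) (Fin 5) K) (R : Matrix (Fin 5) (Fin 3) K)
    (w : Fin 5 → K) {N : (σ → K) → M5 K} (hN : MP N) : VP (fun x => kap L R w (N x)) := by
  have h1 : MP (fun x => L * N x * R) := ((MP.const L).mul hN).mul (MP.const R)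
  exact (VP.smul (fdet_mem h1) (VP.const w)).sub
    ((MP.const R).mulVec (h1.adj.mulVec ((MP.const L).mulVec (hN.mulVec (VP.const w)))))

theorem kap_of_ker {L : Matrix (Fin 3) (Fin 5) K} {R : Matrix (Fin 5) (Fin 3) K} {w : Fin 5 → K}
    {N : M5 K} (h : N *ᵥ w = 0) : kap L R w N = (L * N * R).det • w := by
  unfold kap
  rw [h]
  simp

theorem rank_ge_of_det {L : Matrix (Fin 3) (Fin 5) K} {R : Matrix (Fin 5) (Fin 3) K} {N : M5 K}
    (h : (L * N * R).det ≠ 0) : 3 ≤ N.rank := by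
  have h1 : (L * N * R).rank = 3 := by
    rw [rank_of_det_ne_zero h]; simp
  have h2 : (L * N * R).rank ≤ N.rank := (rank_mul_le_left _ _).trans (rank_mul_le_right _ _)
  omega

theorem mulVec_kap {L : Matrix (Fin 3) (Fin 5) K} {R : Matrix (Fin 5) (Fin 3) K} (w : Fin 5 → K)
    {N : M5 K} (h : (L * N * R).det ≠ 0) (hr : N.rank ≤ 3) : N *ᵥ kap L R w N = 0 := by
  have hle : LinearMap.range (N * R).mulVecLin ≤ LinearMap.range N.mulVecLin := by
    rw [mulVecLin_mul]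
    exact LinearMap.range_comp_le_range _ _
  have h3 : 3 ≤ (N * R).rank := by
    have h1 : (L * N * R).rank = 3 := by
      rw [rank_of_det_ne_zero h]; simp
    rw [Matrix.mul_assoc] at h1
    have h2 := rank_mul_le_right L (N * R)
    omega
  have heq := Submodule.eq_of_le_of_finrank_le hle (hr.trans h3)
  have hw : N *ᵥ w ∈ LinearMap.range N.mulVecLin := ⟨w, rfl⟩
  rw [← heq] at hw
  obtain ⟨y, hy⟩ := hw
  have hy : (N * R) *ᵥ y = N *ᵥ w := hy
  unfold kap
  rw [mulVec_sub, mulVec_smul, ← hy, mulVec_mulVec y L, ← Matrix.mul_assoc L, mulVec_mulVec y _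
    (L * N * R), adjugate_mul, smul_mulVec, one_mulVec, mulVec_smul, mulVec_smul, mulVec_mulVec,
    sub_self]

/-- a property of triples of matrices that is locally given by the nonvanishing of a polynomial -/
def LocOpen (Pr : M5 K → M5 K → M5 K → Prop) : Prop :=
  ∀ N0 X0 Y0 : M5 K, N0.rank ≤ 3 → Pr N0 X0 Y0 → ∃ D : M5 K → M5 K → M5 K → K,
    D N0 X0 Y0 ≠ 0 ∧ (∀ N X Y : M5 K, N.rank ≤ 3 → D N X Y ≠ 0 → Pr N X Y) ∧
    ∀ (σ : Type) (N X Y : (σ → K) → M5 K), MP N → MP X → MP Y →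
      (fun x => D (N x) (X x) (Y x)) ∈ polyFun σ K

theorem locOpen_sig2 : LocOpen (Sig2 : M5 K → M5 K → M5 K → Prop) := by
  intro N0 X0 Y0 hr h
  obtain ⟨h3, w, w', hw, hw', i, j, hij⟩ := h
  obtain ⟨P, P', R, R', e1, e2, e3, e4, hE⟩ := exists_eqv3 N0 (le_antisymm hr h3)
  set L1 : Matrix (Fin 3) (Fin 5) K := P.submatrix Sum.inl id with hL1
  set R1 : Matrix (Fin 5) (Fin 3) K := R.submatrix id Sum.inl with hR1
  have hdet : (L1 * N0 * R1).det = 1 := by
    have : L1 * N0 * R1 = (eqv P R N0).toBlocks₁₁ := by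
      rw [eqv_apply]
      ext a b
      simp [hL1, hR1, Matrix.mul_apply, toBlocks₁₁]
    rw [this, hE, toBlocks_fromBlocks₁₁, det_one]
  refine ⟨fun N X Y => (L1 * N * R1).det *
    ((X *ᵥ kap L1 R1 w N) i * (Y *ᵥ kap L1 R1 w' N) j -
      (X *ᵥ kap L1 R1 w N) j * (Y *ᵥ kap L1 R1 w' N) i), ?_, ?_, ?_⟩
  · simp only []
    rw [kap_of_ker hw, kap_of_ker hw', hdet, one_smul, one_smul, one_mul]
    exact sub_ne_zero.2 hij
  · intro N X Y hN hD
    have hd : (L1 * N * R1).det ≠ 0 := left_ne_zero_of_mul hD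
    have hm := right_ne_zero_of_mul hD
    exact ⟨rank_ge_of_det hd, kap L1 R1 w N, kap L1 R1 w' N, mulVec_kap w hd hN,
      mulVec_kap w' hd hN, i, j, sub_ne_zero.1 hm⟩
  · intro σ N X Y hN hX hY
    have h1 : MP (fun x => L1 * N x * R1) := ((MP.const L1).mul hN).mul (MP.const R1)
    have h2 := hX.mulVec (kap_poly L1 R1 w hN)
    have h3 := hY.mulVec (kap_poly L1 R1 w' hN)
    exact fmul_mem (fdet_mem h1) (fsub_mem (fmul_mem (h2 i) (h3 j)) (fmul_mem (h2 j) (h3 i)))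

theorem LocOpen.transpose {Pr : M5 K → M5 K → M5 K → Prop} (h : LocOpen Pr) :
    LocOpen (fun N X Y => Pr Nᵀ Xᵀ Yᵀ) := by
  intro N0 X0 Y0 hr h0
  obtain ⟨D, h1, h2, h3⟩ := h N0ᵀ X0ᵀ Y0ᵀ (by rw [rank_transpose]; exact hr) h0
  refine ⟨fun N X Y => D Nᵀ Xᵀ Yᵀ, h1, ?_, ?_⟩
  · intro N X Y hN hD
    exact h2 _ _ _ (by rw [rank_transpose]; exact hN) hD
  · intro σ N X Y hN hX hY
    exact h3 σ _ _ _ hN.transpose hX.transpose hY.transpose

variable [Infinite K]

theorem exists_ne_ne {σ : Type*} {f g : (σ → K) → K} (hf : f ∈ polyFun σ K)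
    (hg : g ∈ polyFun σ K) {a b : σ → K} (ha : f a ≠ 0) (hb : g b ≠ 0) :
    ∃ x, f x ≠ 0 ∧ g x ≠ 0 :=
  inter_nonempty (isOpen_ne hf) (isOpen_ne hg) ⟨a, ha⟩ ⟨b, hb⟩

/-- The two kinds of behaviour exclude each other. -/
theorem not_both_space (Q : Submodule K (M5 K)) (hr : ∀ X ∈ Q, X.rank ≤ 3)
    (hdim : 11 ≤ Module.finrank K Q) {N1 N2 X1 Y1 X2 Y2 : M5 K} (hN1 : N1 ∈ Q) (hN2 : N2 ∈ Q)
    (hX1 : X1 ∈ Q) (hY1 : Y1 ∈ Q) (hX2 : X2 ∈ Q) (hY2 : Y2 ∈ Q) (h1 : Sig2 N1 X1 Y1)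
    (h2 : Sig2 N2ᵀ X2ᵀ Y2ᵀ) : False := by
  obtain ⟨D, d1, d2, d3⟩ := locOpen_sig2 N1 X1 Y1 (hr _ hN1) h1
  obtain ⟨E, e1, e2, e3⟩ := locOpen_sig2.transpose N2 X2 Y2 (hr _ hN2) h2
  let T : (Unit → K) → M5 K := fun x => N1 + x () • (N2 - N1)
  have hT : MP T := fun i j => fadd_mem (const_mem (N1 i j))
    (fmul_mem (coord_mem ()) (const_mem (N2 i j - N1 i j)))
  obtain ⟨x, hx1, hx2⟩ := exists_ne_ne (d3 Unit T (fun _ => X1) (fun _ => Y1) hT (MP.const X1)
    (MP.const Y1)) (e3 Unit T (fun _ => X2) (fun _ => Y2) hT (MP.const X2) (MP.const Y2))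
    (a := fun _ => 0) (b := fun _ => 1) (by simpa [T] using d1) (by simpa [T] using e1)
  have hTx : T x ∈ Q := Q.add_mem hN1 (Q.smul_mem _ (Q.sub_mem hN2 hN1))
  exact not_both_at Q hr hdim hTx hX1 hY1 hX2 hY2 (d2 _ _ _ (hr _ hTx) hx1)
    (e2 _ _ _ (hr _ hTx) hx2)

end Q35.FC
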