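import Mathlib
import Pool.Agent.Q35.FC.Open

/-!
Fano schemes of determinantal varieties (closed points, Zariski topology); the Fano scheme of
10-planes on the variety of 5 × 5 matrices of rank at most three is disconnected.
-/

set_option autoImplicit false

namespace Q35.FC

open Matrix Q35.EC MvPolynomial

/-- The points of the Fano scheme `F_k(D^r_{m,n})`: the `(k+1)`-dimensional linear subspaces of the
space of `m × n` matrices which consist of matrices of rank less than `r`. -/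
def FanoD (K : Type*) [Field K] (k r m n : ℕ) : Type _ :=
  {Q : Submodule K (Matrix (Fin m) (Fin n) K) //
    Module.finrank K Q = k + 1 ∧ ∀ A ∈ Q, A.rank < r}

/-- the `i`-th matrix of the family of `k + 1` matrices with entries `p` -/
def frMat {K : Type*} {k m n : ℕ} (p : Fin (k + 1) × Fin m × Fin n → K) (i : Fin (k + 1)) :
    Matrix (Fin m) (Fin n) K := Matrix.of fun a b => p (i, a, b)

/-- The `k + 1` matrices with entries `p` span `Q` (so they are a basis of `Q` if `Q` has dimension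
`k + 1`). -/
def IsFrame {K : Type*} [Field K] {k m n : ℕ} (p : Fin (k + 1) × Fin m × Fin n → K)
    (Q : Submodule K (Matrix (Fin m) (Fin n) K)) : Prop :=
  Submodule.span K (Set.range (frMat p)) = Q

/-- The Zariski topology on `F_k(D^r_{m,n})`, induced from the Grassmannian, which is the quotient
of the variety of families of `k + 1` linearly independent matrices: a set `Z` of subspaces is
closed if it is given by polynomial equations in the entries of the matrices of the bases. -/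
instance FanoD.topology (K : Type*) [Field K] (k r m n : ℕ) : TopologicalSpace (FanoD K k r m n) :=
  TopologicalSpace.ofClosed
    {Z | ∃ S : Set (MvPolynomial (Fin (k + 1) × Fin m × Fin n) K),
      ∀ (p : Fin (k + 1) × Fin m × Fin n → K) (Q : FanoD K k r m n),
      IsFrame p Q.1 → (Q ∈ Z ↔ ∀ f ∈ S, eval p f = 0)}
    ⟨{1}, by intro x J _; simp⟩
    (by
      intro A hA
      refine ⟨{f | ∃ Z ∈ A, ∀ (p : Fin (k + 1) × Fin m × Fin n → K) (Q : FanoD K k r m n),
        IsFrame p Q.1 → Q ∈ Z → eval p f = 0}, ?_⟩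
      intro p J hpJ
      constructor
      · rintro h f ⟨Z, hZ, hf⟩
        exact hf p J hpJ (h Z hZ)
      · intro h Z hZ
        obtain ⟨S, hS⟩ := hA hZ
        rw [hS p J hpJ]
        intro f hf
        exact h f ⟨Z, hZ, fun q K hK hKZ => (hS q K hK).1 hKZ f hf⟩)
    (by
      rintro A ⟨S, hS⟩ B ⟨T, hT⟩
      refine ⟨{f | ∃ g ∈ S, ∃ h ∈ T, f = g * h}, ?_⟩
      intro p J hpJ
      rw [Set.mem_union, hS p J hpJ, hT p J hpJ]
      constructor
      · rintro (h | h) f ⟨g, hg, h', hh', rfl⟩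
        · simp [h g hg]
        · simp [h h' hh']
      · intro h
        by_contra hc
        push Not at hc
        obtain ⟨⟨g, hg, hg0⟩, ⟨h', hh', hh0⟩⟩ := hc
        have := h _ ⟨g, hg, h', hh', rfl⟩
        rw [map_mul] at this
        rcases mul_eq_zero.1 this with h1 | h1
        · exact hg0 h1
        · exact hh0 h1)

theorem FanoD.isClosed_iff {K : Type*} [Field K] {k r m n : ℕ} (Z : Set (FanoD K k r m n)) :
    IsClosed Z ↔ ∃ S : Set (MvPolynomial (Fin (k + 1) × Fin m × Fin n) K),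
      ∀ (p : Fin (k + 1) × Fin m × Fin n → K) (Q : FanoD K k r m n),
      IsFrame p Q.1 → (Q ∈ Z ↔ ∀ f ∈ S, eval p f = 0) :=
  isClosed_ofClosed _ _ _ _ _

section

variable {K : Type*} [Field K]

/-- closedness from locally defining polynomial functions -/
theorem FanoD.isClosed_of_local {k r m n : ℕ} (Z : Set (FanoD K k r m n))
    (h : ∀ (p0 : Fin (k + 1) × Fin m × Fin n → K) (Q0 : FanoD K k r m n), IsFrame p0 Q0.1 →
      Q0 ∉ Z → ∃ g ∈ polyFun (Fin (k + 1) × Fin m × Fin n) K, g p0 ≠ 0 ∧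
        ∀ (p : Fin (k + 1) × Fin m × Fin n → K) (Q : FanoD K k r m n), IsFrame p Q.1 →
          g p ≠ 0 → Q ∉ Z) : IsClosed Z := by
  rw [FanoD.isClosed_iff]
  refine ⟨{f | ∀ (p : Fin (k + 1) × Fin m × Fin n → K) (Q : FanoD K k r m n), IsFrame p Q.1 →
    Q ∈ Z → eval p f = 0}, fun p0 Q0 hp0 => ⟨fun hQ f hf => hf p0 Q0 hp0 hQ, fun hf => ?_⟩⟩
  by_contra hQ
  obtain ⟨g, hg, hg0, hg1⟩ := h p0 Q0 hp0 hQ
  obtain ⟨P, hP⟩ := mem_polyFun.1 hg
  apply hg0
  rw [← hP]
  apply hf
  intro p Q hp hQZ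
  rw [hP]
  by_contra hne
  exact hg1 p Q hp hne hQZ

/-- The sets defined by locally open properties are closed. -/
theorem isClosed_of_locOpen {Pr : M5 K → M5 K → M5 K → Prop} (hPr : LocOpen Pr) (k : ℕ) :
    IsClosed {Q : FanoD K k 4 5 5 | ∀ N ∈ Q.1, ∀ X ∈ Q.1, ∀ Y ∈ Q.1, ¬ Pr N X Y} := by
  apply FanoD.isClosed_of_local
  intro p0 Q0 hp0 hQ0
  simp only [Set.mem_ofPred_eq, not_forall, not_not] at hQ0
  obtain ⟨N, hN, X, hX, Y, hY, h⟩ := hQ0
  have hr : N.rank ≤ 3 := Nat.lt_succ_iff.1 (Q0.2.2 N hN)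
  obtain ⟨D, d1, d2, d3⟩ := hPr N X Y hr h
  rw [← hp0] at hN hX hY
  obtain ⟨a, ha⟩ := (Submodule.mem_span_range_iff_exists_fun K).1 hN
  obtain ⟨b, hb⟩ := (Submodule.mem_span_range_iff_exists_fun K).1 hX
  obtain ⟨c, hc⟩ := (Submodule.mem_span_range_iff_exists_fun K).1 hY
  have hpoly : ∀ a : Fin (k + 1) → K,
      MP (fun p : Fin (k + 1) × Fin 5 × Fin 5 → K => ∑ i, a i • frMat p i) := by
    intro a u v
    simp only [Matrix.sum_apply, Matrix.smul_apply, smul_eq_mul]
    exact fsum_mem _ (fun i _ => fmul_mem (const_mem _) (coord_mem _))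
  refine ⟨fun p => D (∑ i, a i • frMat p i) (∑ i, b i • frMat p i) (∑ i, c i • frMat p i),
    d3 _ _ _ _ (hpoly a) (hpoly b) (hpoly c), ?_, ?_⟩
  · simp only [ha, hb, hc]
    exact d1
  · intro p Q hp hne hQ
    have hmem : ∀ a : Fin (k + 1) → K, (∑ i, a i • frMat p i) ∈ Q.1 := by
      intro a
      rw [← hp]
      exact Submodule.sum_mem _ (fun i _ => Submodule.smul_mem _ _
        (Submodule.subset_span ⟨i, rfl⟩))
    exact hQ _ (hmem a) _ (hmem b) _ (hmem c)
      (d2 _ _ _ (Nat.lt_succ_iff.1 (Q.2.2 _ (hmem a))) hne)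

/-- the eleven positions -/
abbrev Pos : Type := {x : Fin 5 × Fin 5 // x.1.val < 2 ∨ x = (2, 2)}

/-- the space of matrices supported at eleven positions in the first three rows -/
def Qex (K : Type*) [Field K] : Submodule K (M5 K) :=
  Submodule.span K (Set.range (fun x : Pos => (Matrix.single x.1.1 x.1.2 1 : M5 K)))

theorem card_pos : Fintype.card Pos = 11 := by decide

theorem finrank_Qex : Module.finrank K (Qex K) = 11 := by
  have h := (Matrix.stdBasis K (Fin 5) (Fin 5)).linearIndependent.comp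
    (Subtype.val : Pos → Fin 5 × Fin 5) Subtype.val_injective
  have h2 := finrank_span_eq_card h
  rw [card_pos] at h2
  rw [← h2]
  have : (⇑(Matrix.stdBasis K (Fin 5) (Fin 5)) ∘ (Subtype.val : Pos → Fin 5 × Fin 5)) =
      fun x : Pos => (Matrix.single x.1.1 x.1.2 1 : M5 K) := by
    funext x
    obtain ⟨⟨i, j⟩, hx⟩ := x
    exact Matrix.stdBasis_eq_single K i j
  rw [this]
  rfl

theorem Qex_row {A : M5 K} (hA : A ∈ Qex K) {i : Fin 5} (hi : 3 ≤ i.val) (j : Fin 5) :
    A i j = 0 := by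
  induction hA using Submodule.span_induction with
  | mem A hA =>
    obtain ⟨x, rfl⟩ := hA
    have : x.1.1 ≠ i := by
      intro e
      rcases x.2 with h | h
      · rw [e] at h; omega
      · rw [h] at e
        rw [← e] at hi
        simp at hi
    simp [this]
  | zero => rfl
  | add A B _ _ hA hB => rw [Matrix.add_apply, hA, hB, add_zero]
  | smul c A _ hA => rw [Matrix.smul_apply, hA, smul_zero]

theorem Qex_rank {A : M5 K} (hA : A ∈ Qex K) : A.rank < 4 := by
  have h := rank_le_card_of_support_subset A ({0, 1, 2} : Finset (Fin 5)) (by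
    intro i hi
    by_contra hc
    apply hi
    funext j
    apply Qex_row hA
    revert hc
    fin_cases i <;> simp)
  have : ({0, 1, 2} : Finset (Fin 5)).card = 3 := by decide
  omega

theorem single_mem_Qex {i j : Fin 5} (h : i.val < 2 ∨ (i, j) = (2, 2)) :
    (Matrix.single i j 1 : M5 K) ∈ Qex K :=
  Submodule.subset_span ⟨⟨(i, j), h⟩, rfl⟩

theorem sig2_Qex : ∃ N ∈ Qex K, ∃ X ∈ Qex K, ∃ Y ∈ Qex K, Sig2 N X Y := by
  refine ⟨Matrix.single 0 0 1 + Matrix.single 1 1 1 + Matrix.single 2 2 1, ?_,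
    Matrix.single 0 3 1, ?_, Matrix.single 1 3 1, ?_, ?_, Pi.single 3 1, Pi.single 3 1, ?_, ?_,
    0, 1, ?_⟩
  · exact add_mem (add_mem (single_mem_Qex (by decide)) (single_mem_Qex (by decide)))
      (single_mem_Qex (by decide))
  · exact single_mem_Qex (by decide)
  · exact single_mem_Qex (by decide)
  · apply three_le_rank (x := Pi.single 0 1) (y := Pi.single 1 1) (z := Pi.single 2 1)
    intro a b c h
    have h0 := congrFun h 0
    have h1 := congrFun h 1
    have h2 := congrFun h 2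
    simp [Matrix.add_apply] at h0 h1 h2
    exact ⟨h0, h1, h2⟩
  · funext i
    fin_cases i <;> simp [Matrix.add_apply]
  · funext i
    fin_cases i <;> simp [Matrix.add_apply]
  · simp

variable [Infinite K]

theorem main_thm : ∃ U V : Set (FanoD K 10 4 5 5), IsClosed U ∧ IsClosed V ∧ U.Nonempty ∧
    V.Nonempty ∧ Disjoint U V ∧ U ∪ V = Set.univ := by
  refine ⟨{Q | ∀ N ∈ Q.1, ∀ X ∈ Q.1, ∀ Y ∈ Q.1, ¬ Sig2 N X Y},
    {Q | ∀ N ∈ Q.1, ∀ X ∈ Q.1, ∀ Y ∈ Q.1, ¬ Sig2 Nᵀ Xᵀ Yᵀ},
    isClosed_of_locOpen locOpen_sig2 10, isClosed_of_locOpen locOpen_sig2.transpose 10, ?_, ?_, ?_,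
    ?_⟩
  · -- the transposed example
    let T := (transposeLinearEquiv (Fin 5) (Fin 5) K K)
    have hT : ∀ A, A ∈ (Qex K).map T.toLinearMap ↔ Aᵀ ∈ Qex K := by
      intro A
      constructor
      · rintro ⟨B, hB, rfl⟩
        exact hB
      · intro hA
        exact ⟨Aᵀ, hA, rfl⟩
    let Q : FanoD K 10 4 5 5 := ⟨(Qex K).map T.toLinearMap, by
      rw [LinearEquiv.finrank_map_eq]; exact finrank_Qex, fun A hA => by
        rw [← rank_transpose]; exact Qex_rank ((hT A).1 hA)⟩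
    refine ⟨Q, ?_⟩
    intro N hN X hX Y hY h
    obtain ⟨N2, hN2, X2, hX2, Y2, hY2, h2⟩ := sig2_Qex (K := K)
    refine not_both_space Q.1 (fun A hA => Nat.lt_succ_iff.1 (Q.2.2 A hA))
      (by rw [Q.2.1]) hN ((hT N2ᵀ).2 hN2) hX hY ((hT X2ᵀ).2 hX2) ((hT Y2ᵀ).2 hY2) h ?_
    exact h2
  · let Q : FanoD K 10 4 5 5 := ⟨Qex K, finrank_Qex, fun A hA => Qex_rank hA⟩
    refine ⟨Q, ?_⟩
    intro N hN X hX Y hY h
    obtain ⟨N1, hN1, X1, hX1, Y1, hY1, h1⟩ := sig2_Qex (K := K)
    exact not_both_space Q.1 (fun A hA => Nat.lt_succ_iff.1 (Q.2.2 A hA))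
      (by rw [Q.2.1]) hN1 hN hX1 hY1 hX hY h1 h
  · rw [Set.disjoint_left]
    intro Q h1 h2
    rcases exists_sig Q.1 (fun A hA => Nat.lt_succ_iff.1 (Q.2.2 A hA)) (by rw [Q.2.1]) with
      ⟨N, hN, X, hX, Y, hY, h⟩ | ⟨N, hN, X, hX, Y, hY, h⟩
    · exact h1 N hN X hX Y hY h
    · exact h2 N hN X hX Y hY h
  · rw [Set.eq_univ_iff_forall]
    intro Q
    by_contra hc
    rw [Set.mem_union, not_or] at hc
    obtain ⟨h1, h2⟩ := hc
    simp only [Set.mem_ofPred_eq, not_forall, not_not] at h1 h2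
    obtain ⟨N1, hN1, X1, hX1, Y1, hY1, h1⟩ := h1
    obtain ⟨N2, hN2, X2, hX2, Y2, hY2, h2⟩ := h2
    exact not_both_space Q.1 (fun A hA => Nat.lt_succ_iff.1 (Q.2.2 A hA))
      (by rw [Q.2.1]) hN1 hN2 hX1 hY1 hX2 hY2 h1 h2

end

end Q35.FC
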